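import Pool.Agent.W448.FF.Defs

/-! Exact statements of the parts of project FF. -/

set_option autoImplicit false

namespace Pool.Agent.W448.FF

open Finset

/-- MIN: a weighted counterexample can be taken with positive weights and constant `bv`. -/
def S_MIN : Prop := ∀ (V : Type) [Fintype V] (G : OG V) (w : V → ℝ), NoC4 G → Wt w →
  b G w < 4 / 9 → ∃ (V' : Type) (_ : Fintype V') (G' : OG V') (w' : V' → ℝ),
    NoC4 G' ∧ Wp w' ∧ b G' w' < 4 / 9 ∧ ∀ v, bv G' w' v = b G' w'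

/-- ID: the exact identities. -/
def S_ID : Prop := ∀ (V : Type) [Fintype V] (G : OG V) (w : V → ℝ), ∑ v, w v = 1 →
  (∀ v, bv G w v - 4 / 9 = (X G w v - 1 / 3) ^ 2 + (Hh G w v - 1 / 3) ^ 2 + Rr G w v +
      2 * ∑ u, w u * (o G u v * (X G w u - 1 / 3))) ∧
  b G w - 4 / 9 = 3 * ∑ v, w v * (X G w v - 1 / 3) ^ 2 + ∑ v, w v * (Hh G w v - 1 / 3) ^ 2 +
      ∑ v, w v * Rr G w v - 1 / 3 * ∑ v, w v * (Hh G w v - 1 / 3) ∧
  ∑ v, w v * (X G w v - 1 / 3) = -(1 / 2) * ∑ v, w v * (Hh G w v - 1 / 3)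

/-- PART: the partition inequality. -/
def S_PART : Prop := ∀ (V : Type) [Fintype V] (G : OG V) (w : V → ℝ) (p : V → Fin 3), Wt w →
  3 * ∑ v, w v * (X G w v - 1 / 3) ^ 2 + 3 * (ep w p 0 * ep w p 1 * ep w p 2) +
    ∑ v, w v * (D G w p v * (1 - 3 * D G w p v)) + 6 * ∑ v, w v * (ep w p (p v) * mcr G w p v)
    ≤ b G w - 4 / 9

/-- the vertices of part `j` -/
def part {V : Type} [Fintype V] (p : V → Fin 3) (j : Fin 3) : Finset V :=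
  univ.filter (fun v => p v = j)

/-- DEC: small decompositions of the partition quantities. -/
def S_DEC : Prop := ∀ (V : Type) [Fintype V] (G : OG V) (w : V → ℝ) (p : V → Fin 3), Wt w →
  ep w p 0 + ep w p 1 + ep w p 2 = 0 ∧
  (∀ v, Hh G w v - 1 / 3 = ep w p (p v) - ein G w p v + mcr G w p v) ∧
  (∀ v, Hh G w v = nj G w p v 0 + nj G w p v 1 + nj G w p v 2) ∧
  (∀ v, D G w p v = P w p (p v) + Hh G w v - 2 * nj G w p v (p v)) ∧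
  (∀ v j, 0 ≤ nj G w p v j ∧ nj G w p v j ≤ P w p j) ∧
  (∀ v, 0 ≤ ein G w p v ∧ 0 ≤ mcr G w p v) ∧
  ∑ v, w v * (Hh G w v - 1 / 3) =
    ep w p 0 ^ 2 + ep w p 1 ^ 2 + ep w p 2 ^ 2 - ∑ v, w v * ein G w p v +
      ∑ v, w v * mcr G w p v ∧
  ∑ v, w v * ein G w p v =
    dI G w (part p 0) + dI G w (part p 1) + dI G w (part p 2) ∧
  ∑ v, w v * mcr G w p v = 2 * (dM G w (part p 0) (part p 1) + dM G w (part p 0) (part p 2) +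
    dM G w (part p 1) (part p 2)) ∧
  ∑ v, w v * (ep w p (p v) * mcr G w p v) = -(ep w p 2 * dM G w (part p 0) (part p 1) +
    ep w p 1 * dM G w (part p 0) (part p 2) + ep w p 0 * dM G w (part p 1) (part p 2))

/-- R1: the one-sided robust sink lemma. -/
def S_R1 : Prop := ∀ (V : Type) [Fintype V] (G : OG V) (w : V → ℝ), NoC4 G → (∀ v, 0 ≤ w v) →
  ∀ (A B L : Finset V) (b0 : V) (τ : ℝ), Disjoint A B → L ⊆ B → 0 < τ →
    (∀ a ∈ A, τ ≤ yo G w B a) → τ ≤ yo G w A b0 →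
    (∀ v ∈ B, v ∉ L → ¬ G.adj b0 v ∧ yo G w A b0 ≤ yo G w A v) →
    ∑ v ∈ L, w v ≤ τ →
    (τ - ∑ v ∈ L, w v) ^ 2 *
      (1 - dI G w A / τ ^ 2 - 2 * (∑ a ∈ A, w a * nn G b0 a) / τ) ≤ dI G w B / 2

/-- R2: the robust sink lemma. -/
def S_R2 : Prop := ∀ (V : Type) [Fintype V] (G : OG V) (w : V → ℝ), NoC4 G → (∀ v, 0 ≤ w v) →
  ∀ (A B : Finset V) (τ : ℝ), Disjoint A B → A.Nonempty → 0 < τ →
    (∀ a ∈ A, τ ≤ yo G w B a) → (∀ v ∈ B, τ ≤ yo G w A v) →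
    τ ^ 2 / 2 ≤ dI G w A + dI G w B + 4 * dM G w A B

open Classical in
/-- TH: the double threshold property. -/
def S_TH : Prop := ∀ (V : Type) [Fintype V] (G : OG V) (w : V → ℝ), NoC4 G → (∀ v, 0 ≤ w v) →
  ∀ (A B : Finset V) (τ : ℝ), Disjoint A B → 0 < τ →
    dI G w A + dI G w B + 4 * dM G w A B < τ ^ 2 / 2 →
    ∀ s t : ℝ, s ≤ ∑ v ∈ B, w v → t ≤ ∑ v ∈ A, w v →
      t - τ ≤ ∑ a ∈ A.filter (fun a => yo G w B a < s), w a ∨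
      s - τ ≤ ∑ v ∈ B.filter (fun v => yo G w A v < t), w v

open Classical in
/-- INT: integration of the double threshold property. -/
def S_INT : Prop := ∀ (V : Type) (w : V → ℝ), (∀ v, 0 ≤ w v) →
  ∀ (A B : Finset V) (y z : V → ℝ) (ρ τ : ℝ), 0 < ρ → 0 ≤ τ →
    (∀ s t : ℝ, s ≤ τ + ρ → t ≤ τ + ρ →
      t - τ ≤ ∑ a ∈ A.filter (fun a => y a < s), w a ∨
      s - τ ≤ ∑ v ∈ B.filter (fun v => z v < t), w v) →
    2 / 3 * ρ ^ 3 ≤ ∑ a ∈ A, w a * (max (τ + ρ - y a) 0) ^ 2 +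
      ∑ v ∈ B, w v * (max (τ + ρ - z v) 0) ^ 2

/-- XX: the lower bound for the out-degree variance coming from a small part `k`. -/
def S_XX : Prop := ∀ (V : Type) [Fintype V] (G : OG V) (w : V → ℝ), NoC4 G → Wt w →
  ∀ (p : V → Fin 3) (i j k : Fin 3), i ≠ j → i ≠ k → j ≠ k →
    ∀ r τ : ℝ, 0 ≤ τ → τ ≤ r → ep w p k = -r → r ≤ P w p i → r ≤ P w p j →
    dI G w (part p i) + dI G w (part p j) + 4 * dM G w (part p i) (part p j) ≤ τ ^ 2 / 2 →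
    2 * (r - τ) ^ 3 - 3 * r * (dI G w (part p i) + dI G w (part p j)) ≤
      3 * ∑ v, w v * (X G w v - 1 / 3) ^ 2

/-- PT: pointwise lower bound of `Rr`. -/
def S_PT : Prop := ∀ (V : Type) [Fintype V] (G : OG V) (w : V → ℝ) (p : V → Fin 3), Wt w →
  ∀ v, 2 * (nj G w p v 0 * (P w p 0 - nj G w p v 0) + nj G w p v 1 * (P w p 1 - nj G w p v 1) +
      nj G w p v 2 * (P w p 2 - nj G w p v 2)) -
    (dI G w (part p 0) + dI G w (part p 1) + dI G w (part p 2)) ≤ Rr G w v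

/-- LOC: a best partition is locally optimal. -/
def S_LOC : Prop := ∀ (V : Type) [Fintype V] (G : OG V) (w : V → ℝ), Wp w →
  ∃ p : V → Fin 3, (∀ q : V → Fin 3, Dl G w p ≤ Dl G w q) ∧
    ∀ v j, D G w p v ≤ P w p j + Hh G w v - 2 * nj G w p v j

/-- TRD: many triangles. -/
def S_TRD : Prop := ∀ (V : Type) [Fintype V] (G : OG V) (w : V → ℝ), Wt w →
  2 / 9 - 5 / 3 * ∑ v, w v * (Hh G w v - 1 / 3) ≤
    ∑ u, ∑ v, ∑ z, w u * w v * w z * ((1 - nn G u v) * (1 - nn G u z) * (1 - nn G v z))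

/-- PTD: the real algebra behind the pointwise bound of the defects. -/
def S_PTD : Prop := ∀ e0 e1 e2 n0 n1 n2 : ℝ, e0 + e1 + e2 = 0 →
  |e0| ≤ 99 / 1000 → |e1| ≤ 99 / 1000 → |e2| ≤ 99 / 1000 →
  0 ≤ n0 → 0 ≤ n1 → 0 ≤ n2 → n0 ≤ 1 / 3 + e0 → n1 ≤ 1 / 3 + e1 → n2 ≤ 1 / 3 + e2 →
  (n0 + n1 + n2 - 1 / 3) ^ 2 + 2 * (n0 * (1 / 3 + e0 - n0) + n1 * (1 / 3 + e1 - n1) +
    n2 * (1 / 3 + e2 - n2)) ≤ 226 / 10000 →
  (1 / 3 + e0 - n0) + n1 + n2 ≤ 1 / 3 + e1 + (n0 + n1 + n2) - 2 * n1 →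
  (1 / 3 + e0 - n0) + n1 + n2 ≤ 1 / 3 + e2 + (n0 + n1 + n2) - 2 * n2 →
  (1 / 3 + e0 - n0) + n1 + n2 ≤ 55 / 1000

/-- the 3-graph of an oriented graph -/
def FdF {n : ℕ} (G : OG (Fin n)) : Set (Finset (Fin n)) :=
  {e | ∃ a b c, a ≠ b ∧ a ≠ c ∧ b ≠ c ∧ e = {a, b, c} ∧ Bad G a b c}

open Classical in
/-- GR: from weights to counting, and the Turan property. -/
def S_GR : Prop := ∀ (n : ℕ) (G : OG (Fin n)), NoC4 G →
  (∀ w : Fin n → ℝ, Wt w → 4 / 9 ≤ b G w) →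
  (∀ S : Finset (Fin n), S.card = 4 → ∃ e ∈ FdF G, e ⊆ S) ∧
  ∀ H : Finset (Finset (Fin n)), (∀ e ∈ FdF G, e ∈ H) →
    4 * n ^ 3 ≤ 54 * H.card + 27 * n ^ 2

/-- NUM: the final numerical inequality. -/
def S_NUM : Prop := ∀ r τ g : ℝ, 0 ≤ r → r ≤ 99 / 1000 → 0 ≤ τ →
  (835 / 1000 - 3 * r ≤ g ∨ (835 / 1000 + 3 * r) / 2 ≤ g) →
  (τ ≤ r → 0 ≤ 2 * (r - τ) ^ 3 - 3 / 4 * r ^ 3 + g * (τ ^ 2 / 2)) ∧
  (r ≤ τ → 0 ≤ - 3 / 4 * r ^ 3 + g * (τ ^ 2 / 2))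

end Pool.Agent.W448.FF
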