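import Pool.Agent.W448.FF.CTab3

/-! Gram checks of certificate 3. -/

set_option autoImplicit false

namespace Pool.Agent.W448.FF.C3

open Pool.Agent.W448.FF Finset

theorem g0 : gramOK X0 L0 R0 OFF LB = true := by decide +kernel

theorem g1 : gramOK X1 L1 R1 OFF LB = true := by decide +kernel

theorem g4 : gramOK X4 L4 R4 OFF LB = true := by decide +kernel

theorem g5 : gramOK X5 L5 R5 OFF LB = true := by decide +kernel

theorem g8 : gramOK X8 L8 R8 OFF LB = true := by decide +kernel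

theorem g13 : gramOK X13 L13 R13 OFF LB = true := by decide +kernel

theorem g16 : gramOK X16 L16 R16 OFF LB = true := by decide +kernel

theorem gY : oneOK Y LY RY GY OFF LB = true := by decide +kernel

theorem x_symm (c p q : ℕ) : x c p q = x c q p := by
  unfold x
  rw [lks_symm X0 p q]; rw [lks_symm X1 p q]; rw [lks_symm X4 p q]; rw [lks_symm X5 p q]; rw [lks_symm X8 p q]; rw [lks_symm X13 p q]; rw [lks_symm X16 p q]

theorem y_symm (p q : ℕ) : y p q = y q p := lks_symm _ _ _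

theorem y_sw (q : ℕ) : ∀ a < 3, ∀ b < 3, y (c3 a b 0) q = y (c3 b a 0) q ∧
    y (c3 a b 1) q = y (c3 b a 2) q := by
  intro a ha b hb
  unfold y
  rw [(cn_sw a ha b hb).1, (cn_sw a ha b hb).2]
  exact ⟨rfl, rfl⟩

theorem x_gram : ∀ c < 27, ∀ p < 27, ∀ q < 27, (x c p q : ℤ) =
    OFF + ∑ j ∈ range 27, ((l c p j : ℤ) - LB) * ((l c q j : ℤ) - LB) := by
  intro c hc p hp q hq
  by_cases h0 : c = 0
  · subst h0; exact gram_sound X0 L0 R0 OFF LB g0 p hp q hq
  by_cases h1 : c = 1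
  · subst h1; exact gram_sound X1 L1 R1 OFF LB g1 p hp q hq
  by_cases h4 : c = 4
  · subst h4; exact gram_sound X4 L4 R4 OFF LB g4 p hp q hq
  by_cases h5 : c = 5
  · subst h5; exact gram_sound X5 L5 R5 OFF LB g5 p hp q hq
  by_cases h8 : c = 8
  · subst h8; exact gram_sound X8 L8 R8 OFF LB g8 p hp q hq
  by_cases h13 : c = 13
  · subst h13; exact gram_sound X13 L13 R13 OFF LB g13 p hp q hq
  by_cases h16 : c = 16
  · subst h16; exact gram_sound X16 L16 R16 OFF LB g16 p hp q hq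
  have hb : ∀ n, c ≠ n → Nat.beq c n = false := by
    intro n h; rw [Bool.eq_false_iff]; intro h2; exact h (Nat.eq_of_beq_eq_true h2)
  have hx1 : x c p q = OFF := by
    unfold x; rw [hb 0 h0, hb 1 h1, hb 4 h4, hb 5 h5, hb 8 h8, hb 13 h13, hb 16 h16]; rfl
  have hx2 : ∀ r j, l c r j = LB := by
    intro r j; unfold l; rw [hb 0 h0, hb 1 h1, hb 4 h4, hb 5 h5, hb 8 h8, hb 13 h13, hb 16 h16]; rfl
  rw [hx1]; simp [hx2]

end Pool.Agent.W448.FF.C3
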