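import Pool.Agent.W448.FF.CTab1

/-! Main check of certificate 1. -/

set_option autoImplicit false

namespace Pool.Agent.W448.FF.C1

open Pool.Agent.W448.FF

/-- statistic -/
def st : F20 ℕ :=
  fun a0 a1 a2 a3 a4 a5 a6 a7 a8 a9 b0 b1 b2 b3 b4 b5 b6 b7 b8 b9 =>
    Nat.mul 120000000000 (sz a0 a1 a2 a3 a4 a5 a6 a7 a8 a9 b0 b1 b2 b3 b4 b5 b6 b7 b8 b9)

/-- bound -/
def C0 : ℕ := 5278070453324800

/-- the kernel check over all 5-vertex patterns -/
theorem main : chk (FC x y st C0) = true := by decide +kernel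

end Pool.Agent.W448.FF.C1
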