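import Pool.Agent.W448.FF.CTab2

/-! Main check of certificate 2. -/

set_option autoImplicit false

namespace Pool.Agent.W448.FF.C2

open Pool.Agent.W448.FF

/-- statistic -/
def st : F20 ℕ :=
  fun a0 a1 a2 a3 a4 a5 a6 a7 a8 a9 b0 b1 b2 b3 b4 b5 b6 b7 b8 b9 =>
    Nat.add (Nat.mul 40000000000 (sc a0 a1 a2 a3 a4 a5 a6 a7 a8 a9 b0 b1 b2 b3 b4 b5 b6 b7 b8 b9))
      (Nat.mul 41692000000 (sz a0 a1 a2 a3 a4 a5 a6 a7 a8 a9 b0 b1 b2 b3 b4 b5 b6 b7 b8 b9))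

/-- bound -/
def C0 : ℕ := 330126232999466

/-- the kernel check over all 5-vertex patterns -/
theorem main : chk (FC x y st C0) = true := by decide +kernel

end Pool.Agent.W448.FF.C2
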