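import Pool.Agent.W448.FF.CTab3

/-! Main check of certificate 3. -/

set_option autoImplicit false

namespace Pool.Agent.W448.FF.C3

open Pool.Agent.W448.FF

/-- statistic -/
def st : F20 ℕ :=
  s3 50000000 20000000000

/-- bound -/
def C0 : ℕ := 659709976665600

/-- the kernel check over all 5-vertex patterns -/
theorem main : chk (FC x y st C0) = true := by decide +kernel

end Pool.Agent.W448.FF.C3
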