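import Pool.Agent.W448.FF.Kernel

/-! Generic soundness of a certificate, from the parts. -/

set_option autoImplicit false

namespace Pool.Agent.W448.FF

open Finset

/-- the combined test function -/
def FC (x : ℕ → ℕ → ℕ → ℕ) (y : ℕ → ℕ → ℕ) (st : F20 ℕ) (C0 : ℕ) : F20 Bool :=
  fun a0 a1 a2 a3 a4 a5 a6 a7 a8 a9 b0 b1 b2 b3 b4 b5 b6 b7 b8 b9 =>
    Nat.ble (Nat.add (t60 x a0 a1 a2 a3 a4 a5 a6 a7 a8 a9 b0 b1 b2 b3 b4 b5 b6 b7 b8 b9)
      (Nat.add (t15 y a0 a1 a2 a3 a4 a5 a6 a7 a8 a9 b0 b1 b2 b3 b4 b5 b6 b7 b8 b9)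
        (st a0 a1 a2 a3 a4 a5 a6 a7 a8 a9 b0 b1 b2 b3 b4 b5 b6 b7 b8 b9))) C0

theorem E5_mono {V : Type} [Fintype V] {w : V → ℝ} (hw : ∀ v, 0 ≤ w v)
    {f g : V → V → V → V → V → ℝ} (h : ∀ a b c d e, f a b c d e ≤ g a b c d e) :
    E5 w f ≤ E5 w g := by
  unfold E5
  refine sum_le_sum fun a _ => sum_le_sum fun b _ => sum_le_sum fun c _ =>
    sum_le_sum fun d _ => sum_le_sum fun e _ => ?_
  refine mul_le_mul_of_nonneg_left (h a b c d e) ?_
  exact mul_nonneg (mul_nonneg (mul_nonneg (mul_nonneg (hw a) (hw b)) (hw c)) (hw d)) (hw e)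

theorem E5_add {V : Type} [Fintype V] {w : V → ℝ} (f g : V → V → V → V → V → ℝ) :
    E5 w (fun a b c d e => f a b c d e + g a b c d e) = E5 w f + E5 w g := by
  unfold E5
  simp only [mul_add, sum_add_distrib]

theorem E5_const {V : Type} [Fintype V] {w : V → ℝ} (hw : ∑ v, w v = 1) (C : ℝ) :
    E5 w (fun _ _ _ _ _ => C) = C := by
  unfold E5
  have h1 : ∀ r : ℝ, ∑ e, r * w e * C = r * C := by
    intro r
    rw [← sum_mul, ← mul_sum, hw, mul_one]
  have h2 : ∀ r : ℝ, ∑ d, r * w d * C = r * C := h1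
  simp only [h1]
  rw [← sum_mul, hw, one_mul]

theorem E5_smul {V : Type} [Fintype V] {w : V → ℝ} (r : ℝ) (f : V → V → V → V → V → ℝ) :
    E5 w (fun a b c d e => r * f a b c d e) = r * E5 w f := by
  unfold E5
  simp only [mul_sum]
  refine sum_congr rfl fun a _ => sum_congr rfl fun b _ => sum_congr rfl fun c _ =>
    sum_congr rfl fun d _ => sum_congr rfl fun e _ => ?_
  ring

/-- soundness -/
theorem sound (hind : S_IND) (hinv : S_INV) (hsum : S_SUM)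
    (x : ℕ → ℕ → ℕ → ℕ) (y : ℕ → ℕ → ℕ) (st : F20 ℕ) (C0 off offb : ℕ)
    (hx : ∀ c p q, x c p q = x c q p) (hy : ∀ p q, y p q = y q p)
    (hy' : ∀ q, ∀ a < 3, ∀ b < 3, y (c3 a b 0) q = y (c3 b a 0) q ∧
      y (c3 a b 1) q = y (c3 b a 2) q)
    (hst : ∀ (V : Type) (G : OG V), Inv (onV st G))
    (hps3 : ∀ (V : Type) [Fintype V] (G : OG V) (w : V → ℝ), Wt w →
      (off : ℝ) ≤ E5 w (fun a b c d e => (K3 x G a b c d e : ℝ)))
    (hps1 : ∀ (V : Type) [Fintype V] (G : OG V) (w : V → ℝ), Wt w → (∀ v, bv G w v ≤ 4 / 9) →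
      (offb : ℝ) ≤ E5 w (fun a b c d e => (K1 y G a b c d e : ℝ)))
    (hchk : chk (FC x y st C0) = true)
    (V : Type) [Fintype V] (G : OG V) (w : V → ℝ) (hG : NoC4 G) (hw : Wt w)
    (hb : ∀ v, bv G w v ≤ 4 / 9) :
    60 * (off : ℝ) + 15 * offb + E5 w (fun a b c d e => ((onV st G a b c d e : ℕ) : ℝ)) ≤ C0 := by
  have i60 := hinv.1 x hx V G
  have i15 := hinv.2 y hy hy' V G
  have ist := hst V G
  have e : ∀ a b c d e, onV (FC x y st C0) G a b c d e =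
      Nat.ble (Nat.add (onV (t60 x) G a b c d e) (Nat.add (onV (t15 y) G a b c d e)
        (onV st G a b c d e))) C0 := fun _ _ _ _ _ => rfl
  have hI : Inv (onV (FC x y st C0) G) := by
    refine ⟨?_, ?_, ?_, ?_⟩
    · intro a b c d f; rw [e, e, i60.1, i15.1, ist.1]
    · intro a b c d f; rw [e, e, i60.2.1, i15.2.1, ist.2.1]
    · intro a b c d f; rw [e, e, i60.2.2.1, i15.2.2.1, ist.2.2.1]
    · intro a b c d f; rw [e, e, i60.2.2.2, i15.2.2.2, ist.2.2.2]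
  have hall := hind (FC x y st C0) hchk V G hG hI
  have hle : ∀ a b c d f, ((onV (t60 x) G a b c d f : ℕ) : ℝ) +
      (((onV (t15 y) G a b c d f : ℕ) : ℝ) + ((onV st G a b c d f : ℕ) : ℝ)) ≤ (C0 : ℝ) := by
    intro a b c d f
    have h := hall a b c d f
    rw [e] at h
    have h2 := Nat.le_of_ble_eq_true h
    have h3 : onV (t60 x) G a b c d f + (onV (t15 y) G a b c d f + onV st G a b c d f) ≤ C0 := h2
    exact_mod_cast h3
  have hm := E5_mono hw.1 hle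
  rw [E5_const hw.2, E5_add, E5_add] at hm
  have s := hsum V G w
  rw [s.1 x, s.2 y] at hm
  have p3 := hps3 V G w hw
  have p1 := hps1 V G w hw hb
  linarith

end Pool.Agent.W448.FF
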