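import Pool.Agent.W448.FF.CGram1
import Pool.Agent.W448.FF.CGram2
import Pool.Agent.W448.FF.CGram3
import Pool.Agent.W448.FF.CMain1
import Pool.Agent.W448.FF.CMain2
import Pool.Agent.W448.FF.CMain3

/-! The three flag inequalities, from the parts. -/

set_option autoImplicit false

namespace Pool.Agent.W448.FF

open Finset

theorem st3_inv (hins : S_INS) (V : Type) (G : OG V) : Inv (onV C3.st G) :=
  (hins V G).2.2 _ _

theorem st1_inv (hins : S_INS) (V : Type) (G : OG V) : Inv (onV C1.st G) := by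
  obtain ⟨h1, h2, h3, h4⟩ := (hins V G).1
  have e : ∀ a b c d e, onV C1.st G a b c d e = Nat.mul 120000000000 (onV sz G a b c d e) :=
    fun _ _ _ _ _ => rfl
  refine ⟨?_, ?_, ?_, ?_⟩
  · intro a b c d f; rw [e, e, h1]
  · intro a b c d f; rw [e, e, h2]
  · intro a b c d f; rw [e, e, h3]
  · intro a b c d f; rw [e, e, h4]

theorem st2_inv (hins : S_INS) (V : Type) (G : OG V) : Inv (onV C2.st G) := by
  obtain ⟨h1, h2, h3, h4⟩ := (hins V G).1
  obtain ⟨k1, k2, k3, k4⟩ := (hins V G).2.1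
  have e : ∀ a b c d e, onV C2.st G a b c d e = Nat.add (Nat.mul 40000000000 (onV sc G a b c d e))
      (Nat.mul 41692000000 (onV sz G a b c d e)) :=
    fun _ _ _ _ _ => rfl
  refine ⟨?_, ?_, ?_, ?_⟩
  · intro a b c d f; rw [e, e, h1, k1]
  · intro a b c d f; rw [e, e, h2, k2]
  · intro a b c d f; rw [e, e, h3, k3]
  · intro a b c d f; rw [e, e, h4, k4]

theorem raw1 (hind : S_IND) (hinv : S_INV) (hins : S_INS) (hsum : S_SUM) (h3 : S_PS3)
    (h1 : S_PS1) (V : Type) [Fintype V] (G : OG V) (w : V → ℝ) (hG : NoC4 G) (hw : Wt w)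
    (hb : ∀ v, bv G w v ≤ 4 / 9) :
    60 * (C1.OFF : ℝ) + 15 * (C1.OFF : ℝ) +
      E5 w (fun a b c d e => ((onV C1.st G a b c d e : ℕ) : ℝ)) ≤ C1.C0 := by
  refine sound hind hinv hsum C1.x C1.y C1.st C1.C0 C1.OFF C1.OFF C1.x_symm C1.y_symm
    C1.y_sw ?_ ?_ ?_ C1.main V G w hG hw hb
  · intro V G
    exact st1_inv hins V G
  · intro V _ G w hw
    exact h3 C1.x C1.OFF 27 (fun c p j => (C1.l c p j : ℤ) - C1.LB) C1.x_gram V G w hw
  · intro V _ G w hw hb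
    refine h1 C1.y C1.OFF 27 (fun p j => (lkl C1.LY (cn p) j : ℤ) - C1.LB)
      (fun p => lk C1.GY 0 (cn p)) ?_ V G w hw hb
    exact one_sound C1.Y C1.LY C1.RY C1.GY C1.OFF C1.LB C1.gY

theorem raw2 (hind : S_IND) (hinv : S_INV) (hins : S_INS) (hsum : S_SUM) (h3 : S_PS3)
    (h1 : S_PS1) (V : Type) [Fintype V] (G : OG V) (w : V → ℝ) (hG : NoC4 G) (hw : Wt w)
    (hb : ∀ v, bv G w v ≤ 4 / 9) :
    60 * (C2.OFF : ℝ) + 15 * (C2.OFF : ℝ) +
      E5 w (fun a b c d e => ((onV C2.st G a b c d e : ℕ) : ℝ)) ≤ C2.C0 := by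
  refine sound hind hinv hsum C2.x C2.y C2.st C2.C0 C2.OFF C2.OFF C2.x_symm C2.y_symm
    C2.y_sw ?_ ?_ ?_ C2.main V G w hG hw hb
  · intro V G
    exact st2_inv hins V G
  · intro V _ G w hw
    exact h3 C2.x C2.OFF 27 (fun c p j => (C2.l c p j : ℤ) - C2.LB) C2.x_gram V G w hw
  · intro V _ G w hw hb
    refine h1 C2.y C2.OFF 27 (fun p j => (lkl C2.LY (cn p) j : ℤ) - C2.LB)
      (fun p => lk C2.GY 0 (cn p)) ?_ V G w hw hb
    exact one_sound C2.Y C2.LY C2.RY C2.GY C2.OFF C2.LB C2.gY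

theorem raw3 (hind : S_IND) (hinv : S_INV) (hins : S_INS) (hsum : S_SUM) (h3 : S_PS3)
    (h1 : S_PS1) (V : Type) [Fintype V] (G : OG V) (w : V → ℝ) (hG : NoC4 G) (hw : Wt w)
    (hb : ∀ v, bv G w v ≤ 4 / 9) :
    60 * (C3.OFF : ℝ) + 15 * (C3.OFF : ℝ) +
      E5 w (fun a b c d e => ((onV C3.st G a b c d e : ℕ) : ℝ)) ≤ C3.C0 := by
  refine sound hind hinv hsum C3.x C3.y C3.st C3.C0 C3.OFF C3.OFF C3.x_symm C3.y_symm
    C3.y_sw ?_ ?_ ?_ C3.main V G w hG hw hb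
  · intro V G
    exact st3_inv hins V G
  · intro V _ G w hw
    exact h3 C3.x C3.OFF 27 (fun c p j => (C3.l c p j : ℤ) - C3.LB) C3.x_gram V G w hw
  · intro V _ G w hw hb
    refine h1 C3.y C3.OFF 27 (fun p j => (lkl C3.LY (cn p) j : ℤ) - C3.LB)
      (fun p => lk C3.GY 0 (cn p)) ?_ V G w hw hb
    exact one_sound C3.Y C3.LY C3.RY C3.GY C3.OFF C3.LB C3.gY

end Pool.Agent.W448.FF
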