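import Mathlib

/-!
Fon-der-Flaass graphs: finite oriented graphs without induced directed 4-cycle, with vertex
weights.  Definitions and exact statements of the parts of the project FF (MP_466853_co).
-/

set_option autoImplicit false

namespace Pool.Agent.W448.FF

open Finset

/-- An oriented graph (no loops, no two-way arcs; both follow from `asymm`). -/
structure OG (V : Type) where
  arc : V → V → Prop
  asymm : ∀ u v, arc u v → ¬ arc v u

/-- Two vertices are adjacent if there is an arc between them. -/
def OG.adj {V : Type} (G : OG V) (u v : V) : Prop := G.arc u v ∨ G.arc v u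

/-- No induced directed 4-cycle. -/
def NoC4 {V : Type} (G : OG V) : Prop :=
  ∀ a b c d, G.arc a b → G.arc b c → G.arc c d → G.arc d a → G.adj a c ∨ G.adj b d

/-- The triple has a vertex adjacent to neither of the other two, or a vertex with arcs to both. -/
def Bad {V : Type} (G : OG V) (a b c : V) : Prop :=
  (¬ G.adj a b ∧ ¬ G.adj a c) ∨ (¬ G.adj a b ∧ ¬ G.adj b c) ∨ (¬ G.adj a c ∧ ¬ G.adj b c) ∨
    (G.arc a b ∧ G.arc a c) ∨ (G.arc b a ∧ G.arc b c) ∨ (G.arc c a ∧ G.arc c b)

open Classical in
/-- indicator of the arc `u → v` -/
noncomputable def o {V : Type} (G : OG V) (u v : V) : ℝ := if G.arc u v then 1 else 0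

open Classical in
/-- indicator of non-adjacency (equal vertices are non-adjacent) -/
noncomputable def nn {V : Type} (G : OG V) (u v : V) : ℝ := if G.adj u v then 0 else 1

open Classical in
/-- indicator of a bad triple -/
noncomputable def bd {V : Type} (G : OG V) (a b c : V) : ℝ := if Bad G a b c then 1 else 0

/-- nonnegative weights of total 1 -/
def Wt {V : Type} [Fintype V] (w : V → ℝ) : Prop := (∀ v, 0 ≤ w v) ∧ ∑ v, w v = 1

/-- positive weights of total 1 -/
def Wp {V : Type} [Fintype V] (w : V → ℝ) : Prop := (∀ v, 0 < w v) ∧ ∑ v, w v = 1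

section
variable {V : Type} [Fintype V] (G : OG V) (w : V → ℝ)

/-- weighted out-degree -/
noncomputable def X (v : V) : ℝ := ∑ u, w u * o G v u

/-- weight of the non-neighbours (with the vertex itself) -/
noncomputable def Hh (v : V) : ℝ := ∑ u, w u * nn G v u

/-- twice the weight of the pairs `(u, z)` with `u ~ v` and `z` adjacent to neither -/
noncomputable def Rr (v : V) : ℝ :=
  2 * ∑ u, ∑ z, w u * w z * ((1 - nn G v u) * (nn G u z * nn G v z))

/-- weight of the bad triples through `v` -/
noncomputable def bv (v : V) : ℝ := ∑ y, ∑ z, w y * w z * bd G v y z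

/-- the density of bad triples -/
noncomputable def b : ℝ := ∑ v, w v * bv G w v

end

section
variable {V : Type} [Fintype V] (G : OG V) (w : V → ℝ) (p : V → Fin 3)

/-- weight of part `j` -/
noncomputable def P (j : Fin 3) : ℝ := ∑ v, if p v = j then w v else 0

/-- the excess of part `j` -/
noncomputable def ep (j : Fin 3) : ℝ := P w p j - 1 / 3

/-- weight of the non-neighbours of `v` inside part `j` -/
noncomputable def nj (v : V) (j : Fin 3) : ℝ := ∑ u, if p u = j then w u * nn G v u else 0

/-- weight of the neighbours of `v` in its own part -/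
noncomputable def ein (v : V) : ℝ := ∑ u, if p u = p v then w u * (1 - nn G v u) else 0

/-- weight of the non-neighbours of `v` in the other parts -/
noncomputable def mcr (v : V) : ℝ := ∑ u, if p u = p v then 0 else w u * nn G v u

/-- all defects at `v` -/
noncomputable def D (v : V) : ℝ := ein G w p v + mcr G w p v

/-- total weight of the (ordered) defects -/
noncomputable def Dl : ℝ := ∑ v, w v * D G w p v

end

section
variable {V : Type} (G : OG V) (w : V → ℝ)

/-- ordered weight of the adjacent pairs inside the set `A` -/
noncomputable def dI (A : Finset V) : ℝ := ∑ u ∈ A, ∑ v ∈ A, w u * w v * (1 - nn G u v)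

/-- weight of the non-adjacent pairs between `A` and `B` -/
noncomputable def dM (A B : Finset V) : ℝ := ∑ u ∈ A, ∑ v ∈ B, w u * w v * nn G u v

/-- weighted out-degree of `v` into `B` -/
noncomputable def yo (B : Finset V) (v : V) : ℝ := ∑ u ∈ B, w u * o G v u

end

end Pool.Agent.W448.FF
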