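import Pool.Agent.W448.FF.Stmts

set_option autoImplicit false
set_option linter.unusedVariables false

namespace Pool.Agent.W448.FF

theorem fin_real (hnum : S_NUM) (E ei ej ek Ii Ij Ik Mij Mik Mjk : ℝ) (hE : 0 ≤ E)
    (hs : ei + ej + ek = 0) (bi : |ei| ≤ 99 / 1000) (bj : |ej| ≤ 99 / 1000)
    (bk : |ek| ≤ 99 / 1000)
    (h1 : 0 ≤ Ii) (h2 : 0 ≤ Ij) (h3 : 0 ≤ Ik) (h4 : 0 ≤ Mij) (h5 : 0 ≤ Mik) (h6 : 0 ≤ Mjk)
    (hk : ek < 0) (hi : 0 < ei) (hj : 0 < ej)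
    (hXX : ∀ τ, 0 ≤ τ → τ ≤ -ek → Ii + Ij + 4 * Mij ≤ τ ^ 2 / 2 →
      2 * (-ek - τ) ^ 3 - 3 * (-ek) * (Ii + Ij) ≤ 3 * E)
    (hlt : 3 * E + 3 * (ei * ej * ek) + 835 / 1000 * (Ii + Ij + Ik) +
      (1670 / 1000 - 6 * ek) * Mij + (1670 / 1000 - 6 * ej) * Mik +
      (1670 / 1000 - 6 * ei) * Mjk < 0) : False := by
  rw [abs_le] at bi bj bk
  set r : ℝ := -ek with hr
  set Θ : ℝ := Ii + Ij + 4 * Mij with hΘ
  have hΘ0 : 0 ≤ Θ := by rw [hΘ]; positivity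
  set τ : ℝ := Real.sqrt (2 * Θ) with hτ
  have hτ0 : 0 ≤ τ := Real.sqrt_nonneg _
  have hτ2 : τ ^ 2 = 2 * Θ := Real.sq_sqrt (by positivity)
  set g : ℝ := min (835 / 1000 - 3 * r) ((835 / 1000 + 3 * r) / 2) with hg
  have g1 : g ≤ 835 / 1000 - 3 * r := min_le_left _ _
  have g2 : g ≤ (835 / 1000 + 3 * r) / 2 := min_le_right _ _
  have hr0 : 0 ≤ r := by rw [hr]; linarith
  have hr1 : r ≤ 99 / 1000 := by rw [hr]; linarith
  have hgor : 835 / 1000 - 3 * r ≤ g ∨ (835 / 1000 + 3 * r) / 2 ≤ g := by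
    rcases min_choice (835 / 1000 - 3 * r) ((835 / 1000 + 3 * r) / 2) with h | h
    · left; rw [hg, h]
    · right; rw [hg, h]
  obtain ⟨n1, n2⟩ := hnum r τ g hr0 hr1 hτ0 hgor
  have hprod : -(3 / 4) * r ^ 3 ≤ 3 * (ei * ej * ek) := by
    have h7 : ei * ej ≤ r ^ 2 / 4 := by
      have : r = ei + ej := by rw [hr]; linarith
      rw [this]; nlinarith [sq_nonneg (ei - ej)]
    have h8 : ek = -r := by rw [hr]; ring
    rw [h8]
    nlinarith [mul_le_mul_of_nonneg_right h7 hr0]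
  have hik : 0 ≤ 835 / 1000 * Ik := by positivity
  have hmk : 0 ≤ (1670 / 1000 - 6 * ej) * Mik := mul_nonneg (by linarith) h5
  have hmj : 0 ≤ (1670 / 1000 - 6 * ei) * Mjk := mul_nonneg (by linarith) h6
  have hek : ek = -r := by rw [hr]; ring
  have hM : 4 * g * Mij ≤ (1670 / 1000 - 6 * ek) * Mij := by
    refine mul_le_mul_of_nonneg_right ?_ h4
    rw [hek]; linarith
  rcases le_total τ r with h | h
  · have hx := hXX τ hτ0 h (by rw [hτ2]; linarith)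
    have n1' := n1 h
    rw [hτ2] at n1'
    have hI : g * (Ii + Ij) ≤ (835 / 1000 - 3 * r) * (Ii + Ij) :=
      mul_le_mul_of_nonneg_right g1 (by positivity)
    rw [hΘ] at n1'
    linarith
  · have n2' := n2 h
    rw [hτ2] at n2'
    have hI : g * (Ii + Ij) ≤ 835 / 1000 * (Ii + Ij) :=
      mul_le_mul_of_nonneg_right (by linarith) (by positivity)
    rw [hΘ] at n2'
    linarith

end Pool.Agent.W448.FF
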