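import Pool.Agent.W448.FF.Stmts

/-!
Kernel functions of the flag certificates (N = 5) of project FF.  A 5-tuple of vertices is coded by
its 20 arc digits `d_ij` (i < j) and `s_ij = d_ji`; digit 0 = not adjacent, 1 = arc forward,
2 = arc backward.
-/

set_option autoImplicit false
set_option linter.unusedVariables false

namespace Pool.Agent.W448.FF

open Finset

open Classical in
/-- arc digit: 0 not adjacent, 1 arc `u → v`, 2 arc `v → u` -/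
noncomputable def ac {V : Type} (G : OG V) (u v : V) : ℕ :=
  if G.arc u v then 1 else if G.arc v u then 2 else 0

/-- code of three digits -/
def c3 (a b c : ℕ) : ℕ := Nat.add (Nat.mul 9 a) (Nat.add (Nat.mul 3 b) c)

/-- the digits show an induced directed 4-cycle -/
def c4 (a b c d e f : ℕ) : Bool :=
  and (Nat.beq a 1) (and (Nat.beq b 1) (and (Nat.beq c 1) (and (Nat.beq d 1)
    (and (Nat.beq e 0) (Nat.beq f 0)))))

/-- type of functions of the 20 digits -/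
abbrev F20 (α : Type) : Type := ℕ → ℕ → ℕ → ℕ → ℕ → ℕ → ℕ → ℕ → ℕ → ℕ → ℕ → ℕ → ℕ → ℕ → ℕ → ℕ → ℕ → ℕ → ℕ → ℕ → α

/-- sum over the 60 ordered triples with a pair -/
def t60 (x : ℕ → ℕ → ℕ → ℕ)
    (d01 d02 d12 d03 d13 d23 d04 d14 d24 d34 s01 s02 s12 s03 s13 s23 s04 s14 s24 s34 : ℕ) : ℕ :=
  (Nat.add (Nat.add (Nat.add (Nat.add (Nat.add (x (c3 d01 d02 d12) (c3 d03 d13 d23) (c3 d04 d14
    d24)) (Nat.add (x (c3 d01 d03 d13) (c3 d02 d12 s23) (c3 d04 d14 d34)) (x (c3 d01 d04 d14)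
    (c3 d02 d12 s24) (c3 d03 d13 s34)))) (Nat.add (Nat.add (x (c3 d02 d01 s12) (c3 d03 d23 d13)
    (c3 d04 d24 d14)) (x (c3 d02 d03 d23) (c3 d01 s12 s13) (c3 d04 d24 d34))) (Nat.add (x (c3
    d02 d04 d24) (c3 d01 s12 s14) (c3 d03 d23 s34)) (x (c3 d03 d01 s13) (c3 d02 s23 d12) (c3 d04
    d34 d14))))) (Nat.add (Nat.add (Nat.add (x (c3 d03 d02 s23) (c3 d01 s13 s12) (c3 d04 d34
    d24)) (x (c3 d03 d04 d34) (c3 d01 s13 s14) (c3 d02 s23 s24))) (Nat.add (x (c3 d04 d01 s14)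
    (c3 d02 s24 d12) (c3 d03 s34 d13)) (x (c3 d04 d02 s24) (c3 d01 s14 s12) (c3 d03 s34 d23))))
    (Nat.add (Nat.add (x (c3 d04 d03 s34) (c3 d01 s14 s13) (c3 d02 s24 s23)) (x (c3 s01 d12 d02)
    (c3 d13 d03 d23) (c3 d14 d04 d24))) (Nat.add (x (c3 s01 d13 d03) (c3 d12 d02 s23) (c3 d14
    d04 d34)) (x (c3 s01 d14 d04) (c3 d12 d02 s24) (c3 d13 d03 s34)))))) (Nat.add (Nat.add
    (Nat.add (x (c3 d12 s01 s02) (c3 d13 d23 d03) (c3 d14 d24 d04)) (Nat.add (x (c3 d12 d13 d23)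
    (c3 s01 s02 s03) (c3 d14 d24 d34)) (x (c3 d12 d14 d24) (c3 s01 s02 s04) (c3 d13 d23 s34))))
    (Nat.add (Nat.add (x (c3 d13 s01 s03) (c3 d12 s23 d02) (c3 d14 d34 d04)) (x (c3 d13 d12 s23)
    (c3 s01 s03 s02) (c3 d14 d34 d24))) (Nat.add (x (c3 d13 d14 d34) (c3 s01 s03 s04) (c3 d12
    s23 s24)) (x (c3 d14 s01 s04) (c3 d12 s24 d02) (c3 d13 s34 d03))))) (Nat.add (Nat.add
    (Nat.add (x (c3 d14 d12 s24) (c3 s01 s04 s02) (c3 d13 s34 d23)) (x (c3 d14 d13 s34) (c3 s01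
    s04 s03) (c3 d12 s24 s23))) (Nat.add (x (c3 s02 s12 d01) (c3 d23 d03 d13) (c3 d24 d04 d14))
    (x (c3 s02 d23 d03) (c3 s12 d01 s13) (c3 d24 d04 d34)))) (Nat.add (Nat.add (x (c3 s02 d24
    d04) (c3 s12 d01 s14) (c3 d23 d03 s34)) (x (c3 s12 s02 s01) (c3 d23 d13 d03) (c3 d24 d14
    d04))) (Nat.add (x (c3 s12 d23 d13) (c3 s02 s01 s03) (c3 d24 d14 d34)) (x (c3 s12 d24 d14)
    (c3 s02 s01 s04) (c3 d23 d13 s34))))))) (Nat.add (Nat.add (Nat.add (Nat.add (x (c3 d23 s02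
    s03) (c3 s12 s13 d01) (c3 d24 d34 d04)) (Nat.add (x (c3 d23 s12 s13) (c3 s02 s03 s01) (c3
    d24 d34 d14)) (x (c3 d23 d24 d34) (c3 s02 s03 s04) (c3 s12 s13 s14)))) (Nat.add (Nat.add (x
    (c3 d24 s02 s04) (c3 s12 s14 d01) (c3 d23 s34 d03)) (x (c3 d24 s12 s14) (c3 s02 s04 s01) (c3
    d23 s34 d13))) (Nat.add (x (c3 d24 d23 s34) (c3 s02 s04 s03) (c3 s12 s14 s13)) (x (c3 s03
    s13 d01) (c3 s23 d02 d12) (c3 d34 d04 d14))))) (Nat.add (Nat.add (Nat.add (x (c3 s03 s23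
    d02) (c3 s13 d01 s12) (c3 d34 d04 d24)) (x (c3 s03 d34 d04) (c3 s13 d01 s14) (c3 s23 d02
    s24))) (Nat.add (x (c3 s13 s03 s01) (c3 s23 d12 d02) (c3 d34 d14 d04)) (x (c3 s13 s23 d12)
    (c3 s03 s01 s02) (c3 d34 d14 d24)))) (Nat.add (Nat.add (x (c3 s13 d34 d14) (c3 s03 s01 s04)
    (c3 s23 d12 s24)) (x (c3 s23 s03 s02) (c3 s13 s12 d01) (c3 d34 d24 d04))) (Nat.add (x (c3
    s23 s13 s12) (c3 s03 s02 s01) (c3 d34 d24 d14)) (x (c3 s23 d34 d24) (c3 s03 s02 s04) (c3 s13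
    s12 s14)))))) (Nat.add (Nat.add (Nat.add (x (c3 d34 s03 s04) (c3 s13 s14 d01) (c3 s23 s24
    d02)) (Nat.add (x (c3 d34 s13 s14) (c3 s03 s04 s01) (c3 s23 s24 d12)) (x (c3 d34 s23 s24)
    (c3 s03 s04 s02) (c3 s13 s14 s12)))) (Nat.add (Nat.add (x (c3 s04 s14 d01) (c3 s24 d02 d12)
    (c3 s34 d03 d13)) (x (c3 s04 s24 d02) (c3 s14 d01 s12) (c3 s34 d03 d23))) (Nat.add (x (c3
    s04 s34 d03) (c3 s14 d01 s13) (c3 s24 d02 s23)) (x (c3 s14 s04 s01) (c3 s24 d12 d02) (c3 s34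
    d13 d03))))) (Nat.add (Nat.add (Nat.add (x (c3 s14 s24 d12) (c3 s04 s01 s02) (c3 s34 d13
    d23)) (x (c3 s14 s34 d13) (c3 s04 s01 s03) (c3 s24 d12 s23))) (Nat.add (x (c3 s24 s04 s02)
    (c3 s14 s12 d01) (c3 s34 d23 d03)) (x (c3 s24 s14 s12) (c3 s04 s02 s01) (c3 s34 d23 d13))))
    (Nat.add (Nat.add (x (c3 s24 s34 d23) (c3 s04 s02 s03) (c3 s14 s12 s13)) (x (c3 s34 s04 s03)
    (c3 s14 s13 d01) (c3 s24 s23 d02))) (Nat.add (x (c3 s34 s14 s13) (c3 s04 s03 s01) (c3 s24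
    s23 d12)) (x (c3 s34 s24 s23) (c3 s04 s03 s02) (c3 s14 s13 s12))))))))

/-- sum over the 15 vertices with two pairs -/
def t15 (y : ℕ → ℕ → ℕ)
    (d01 d02 d12 d03 d13 d23 d04 d14 d24 d34 s01 s02 s12 s03 s13 s23 s04 s14 s24 s34 : ℕ) : ℕ :=
  (Nat.add (Nat.add (Nat.add (y (c3 d01 d02 d12) (c3 d03 d04 d34)) (Nat.add (y (c3 d01 d03 d13)
    (c3 d02 d04 d24)) (y (c3 d01 d04 d14) (c3 d02 d03 d23)))) (Nat.add (Nat.add (y (c3 s01 d12
    d02) (c3 d13 d14 d34)) (y (c3 s01 d13 d03) (c3 d12 d14 d24))) (Nat.add (y (c3 s01 d14 d04)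
    (c3 d12 d13 d23)) (y (c3 s02 s12 d01) (c3 d23 d24 d34))))) (Nat.add (Nat.add (Nat.add (y (c3
    s02 d23 d03) (c3 s12 d24 d14)) (y (c3 s02 d24 d04) (c3 s12 d23 d13))) (Nat.add (y (c3 s03
    s13 d01) (c3 s23 d34 d24)) (y (c3 s03 s23 d02) (c3 s13 d34 d14)))) (Nat.add (Nat.add (y (c3
    s03 d34 d04) (c3 s13 s23 d12)) (y (c3 s04 s14 d01) (c3 s24 s34 d23))) (Nat.add (y (c3 s04
    s24 d02) (c3 s14 s34 d13)) (y (c3 s04 s34 d03) (c3 s14 s24 d12))))))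

/-- the code of the first four vertices does not decrease under the three transpositions -/
def lm4 (d01 d02 d12 d03 d13 d23 s01 s02 s12 s03 s13 s23 : ℕ) : Bool :=
  and (Nat.ble (Nat.add (Nat.mul 3 (Nat.add (Nat.mul 3 (Nat.add (Nat.mul 3 (Nat.add (Nat.mul 3
    (Nat.add (Nat.mul 3 d01) d02)) d12)) d03)) d13)) d23) (Nat.add (Nat.mul 3 (Nat.add (Nat.mul
    3 (Nat.add (Nat.mul 3 (Nat.add (Nat.mul 3 (Nat.add (Nat.mul 3 s01) d12)) d02)) d13)) d03))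
    d23)) (and (Nat.ble (Nat.add (Nat.mul 3 (Nat.add (Nat.mul 3 (Nat.add (Nat.mul 3 (Nat.add
    (Nat.mul 3 (Nat.add (Nat.mul 3 d01) d02)) d12)) d03)) d13)) d23) (Nat.add (Nat.mul 3
    (Nat.add (Nat.mul 3 (Nat.add (Nat.mul 3 (Nat.add (Nat.mul 3 (Nat.add (Nat.mul 3 d02) d01))
    s12)) d03)) d23)) d13)) (Nat.ble (Nat.add (Nat.mul 3 (Nat.add (Nat.mul 3 (Nat.add (Nat.mul 3
    (Nat.add (Nat.mul 3 (Nat.add (Nat.mul 3 d01) d02)) d12)) d03)) d13)) d23) (Nat.add (Nat.mul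
    3 (Nat.add (Nat.mul 3 (Nat.add (Nat.mul 3 (Nat.add (Nat.mul 3 (Nat.add (Nat.mul 3 d01) d03))
    d13)) d02)) d12)) s23)))

/-- some induced directed 4-cycle on the first four -/
def hc4 (d01 d02 d12 d03 d13 d23 s01 s02 s12 s03 s13 s23 : ℕ) : Bool :=
  (or (c4 d01 d12 d23 s03 d02 d13) (or (c4 d01 d13 s23 s02 d03 d12) (or (c4 d02 s12 d13 s03 d01
    d23) (or (c4 d02 d23 s13 s01 d03 s12) (or (c4 d03 s13 d12 s02 d01 s23) (c4 d03 s23 s12 s01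
    d02 s13))))))

/-- the code does not decrease under the four transpositions -/
def lm5
    (d01 d02 d12 d03 d13 d23 d04 d14 d24 d34 s01 s02 s12 s03 s13 s23 s04 s14 s24 s34 : ℕ) : Bool
      :=
  and (Nat.ble (Nat.add (Nat.mul 3 (Nat.add (Nat.mul 3 (Nat.add (Nat.mul 3 (Nat.add (Nat.mul 3
    (Nat.add (Nat.mul 3 (Nat.add (Nat.mul 3 (Nat.add (Nat.mul 3 (Nat.add (Nat.mul 3 (Nat.add
    (Nat.mul 3 d01) d02)) d12)) d03)) d13)) d23)) d04)) d14)) d24)) d34) (Nat.add (Nat.mul 3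
    (Nat.add (Nat.mul 3 (Nat.add (Nat.mul 3 (Nat.add (Nat.mul 3 (Nat.add (Nat.mul 3 (Nat.add
    (Nat.mul 3 (Nat.add (Nat.mul 3 (Nat.add (Nat.mul 3 (Nat.add (Nat.mul 3 d01) d02)) d12))
    d04)) d14)) d24)) d03)) d13)) d23)) s34)) (and (Nat.ble (Nat.add (Nat.mul 3 (Nat.add
    (Nat.mul 3 (Nat.add (Nat.mul 3 (Nat.add (Nat.mul 3 (Nat.add (Nat.mul 3 (Nat.add (Nat.mul 3
    (Nat.add (Nat.mul 3 (Nat.add (Nat.mul 3 (Nat.add (Nat.mul 3 d01) d02)) d12)) d03)) d13))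
    d23)) d04)) d14)) d24)) d34) (Nat.add (Nat.mul 3 (Nat.add (Nat.mul 3 (Nat.add (Nat.mul 3
    (Nat.add (Nat.mul 3 (Nat.add (Nat.mul 3 (Nat.add (Nat.mul 3 (Nat.add (Nat.mul 3 (Nat.add
    (Nat.mul 3 (Nat.add (Nat.mul 3 s01) d12)) d02)) d13)) d03)) d23)) d14)) d04)) d24)) d34))
    (and (Nat.ble (Nat.add (Nat.mul 3 (Nat.add (Nat.mul 3 (Nat.add (Nat.mul 3 (Nat.add (Nat.mul
    3 (Nat.add (Nat.mul 3 (Nat.add (Nat.mul 3 (Nat.add (Nat.mul 3 (Nat.add (Nat.mul 3 (Nat.add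
    (Nat.mul 3 d01) d02)) d12)) d03)) d13)) d23)) d04)) d14)) d24)) d34) (Nat.add (Nat.mul 3
    (Nat.add (Nat.mul 3 (Nat.add (Nat.mul 3 (Nat.add (Nat.mul 3 (Nat.add (Nat.mul 3 (Nat.add
    (Nat.mul 3 (Nat.add (Nat.mul 3 (Nat.add (Nat.mul 3 (Nat.add (Nat.mul 3 d02) d01)) s12))
    d03)) d23)) d13)) d04)) d24)) d14)) d34)) (Nat.ble (Nat.add (Nat.mul 3 (Nat.add (Nat.mul 3
    (Nat.add (Nat.mul 3 (Nat.add (Nat.mul 3 (Nat.add (Nat.mul 3 (Nat.add (Nat.mul 3 (Nat.add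
    (Nat.mul 3 (Nat.add (Nat.mul 3 (Nat.add (Nat.mul 3 d01) d02)) d12)) d03)) d13)) d23)) d04))
    d14)) d24)) d34) (Nat.add (Nat.mul 3 (Nat.add (Nat.mul 3 (Nat.add (Nat.mul 3 (Nat.add
    (Nat.mul 3 (Nat.add (Nat.mul 3 (Nat.add (Nat.mul 3 (Nat.add (Nat.mul 3 (Nat.add (Nat.mul 3
    (Nat.add (Nat.mul 3 d01) d03)) d13)) d02)) d12)) s23)) d04)) d14)) d34)) d24))))

/-- some induced directed 4-cycle through the fifth vertex -/
def hc5
    (d01 d02 d12 d03 d13 d23 d04 d14 d24 d34 s01 s02 s12 s03 s13 s23 s04 s14 s24 s34 : ℕ) : Bool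
      :=
  (or (c4 d01 d12 d24 s04 d02 d14) (or (c4 d01 d14 s24 s02 d04 d12) (or (c4 d02 s12 d14 s04 d01
    d24) (or (c4 d02 d24 s14 s01 d04 s12) (or (c4 d04 s14 d12 s02 d01 s24) (or (c4 d04 s24 s12
    s01 d02 s14) (or (c4 d01 d13 d34 s04 d03 d14) (or (c4 d01 d14 s34 s03 d04 d13) (or (c4 d03
    s13 d14 s04 d01 d34) (or (c4 d03 d34 s14 s01 d04 s13) (or (c4 d04 s14 d13 s03 d01 s34) (or
    (c4 d04 s34 s13 s01 d03 s14) (or (c4 d02 d23 d34 s04 d03 d24) (or (c4 d02 d24 s34 s03 d04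
    d23) (or (c4 d03 s23 d24 s04 d02 d34) (or (c4 d03 d34 s24 s02 d04 s23) (or (c4 d04 s24 d23
    s03 d02 s34) (or (c4 d04 s34 s23 s02 d03 s24) (or (c4 d12 d23 d34 s14 d13 d24) (or (c4 d12
    d24 s34 s13 d14 d23) (or (c4 d13 s23 d24 s14 d12 d34) (or (c4 d13 d34 s24 s12 d14 s23) (or
    (c4 d14 s24 d23 s13 d12 s34) (c4 d14 s34 s23 s12 d13 s24))))))))))))))))))))))))

/-- both digits of a pair -/
def all3 (f : ℕ → ℕ → Bool) : Bool := and (f 0 0) (and (f 1 2) (f 2 1))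

/-- the check for one 5-vertex pattern -/
def chk5 (F : F20 Bool)
    (d01 d02 d12 d03 d13 d23 d04 d14 d24 d34 s01 s02 s12 s03 s13 s23 s04 s14 s24 s34 : ℕ) : Bool
      :=
  or (not (lm5 d01 d02 d12 d03 d13 d23 d04 d14 d24 d34 s01 s02 s12 s03 s13 s23 s04 s14 s24 s34))
    (or (hc5 d01 d02 d12 d03 d13 d23 d04 d14 d24 d34 s01 s02 s12 s03 s13 s23 s04 s14 s24 s34) (F
    d01 d02 d12 d03 d13 d23 d04 d14 d24 d34 s01 s02 s12 s03 s13 s23 s04 s14 s24 s34))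

/-- the check for all extensions of one 4-vertex pattern -/
def chk4 (F : F20 Bool)
    (d01 d02 d12 d03 d13 d23 s01 s02 s12 s03 s13 s23 : ℕ) : Bool :=
  or (not (lm4 d01 d02 d12 d03 d13 d23 s01 s02 s12 s03 s13 s23)) (or (hc4 d01 d02 d12 d03 d13
    d23 s01 s02 s12 s03 s13 s23) (all3 fun d04 s04 => all3 fun d14 s14 => all3 fun d24 s24 =>
    all3 fun d34 s34 => chk5 F d01 d02 d12 d03 d13 d23 d04 d14 d24 d34 s01 s02 s12 s03 s13 s23
    s04 s14 s24 s34))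

/-- the complete check -/
def chk (F : F20 Bool) : Bool :=
  all3 fun d01 s01 => all3 fun d02 s02 => all3 fun d12 s12 => all3 fun d03 s03 => all3 fun d13
    s13 => all3 fun d23 s23 => chk4 F d01 d02 d12 d03 d13 d23 s01 s02 s12 s03 s13 s23

/-- 1 for digit 0 -/
def z1 (a : ℕ) : ℕ := cond (Nat.beq a 0) 1 0

/-- 1 if both digits are 1 -/
def o2 (a b : ℕ) : ℕ := cond (Nat.beq a 1) (cond (Nat.beq b 1) 1 0) 0

/-- the part given by three digits -/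
def pt (a b c : ℕ) : ℕ := cond (Nat.beq a 0) 0 (cond (Nat.beq b 0) 1 (cond (Nat.beq c 0) 2 0))

/-- `dl` if the first three vertices are no triangle, else `U` for a defect and `0` for none -/
def df (dl U a b c p0 p1 p2 q0 q1 q2 r : ℕ) : ℕ :=
  cond (Nat.beq a 0) dl (cond (Nat.beq b 0) dl (cond (Nat.beq c 0) dl
    (cond (Nat.beq (pt p0 p1 p2) (pt q0 q1 q2)) (cond (Nat.beq r 0) 0 U)
      (cond (Nat.beq r 0) U 0))))

/-- number of non-adjacent pairs -/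
def sz
    (d01 d02 d12 d03 d13 d23 d04 d14 d24 d34 s01 s02 s12 s03 s13 s23 s04 s14 s24 s34 : ℕ) : ℕ :=
  (Nat.add (Nat.add (Nat.add (z1 d01) (z1 d02)) (Nat.add (z1 d12) (Nat.add (z1 d03) (z1 d13))))
    (Nat.add (Nat.add (z1 d23) (z1 d04)) (Nat.add (z1 d14) (Nat.add (z1 d24) (z1 d34)))))

/-- number of pairs of arcs with a common tail -/
def sc
    (d01 d02 d12 d03 d13 d23 d04 d14 d24 d34 s01 s02 s12 s03 s13 s23 s04 s14 s24 s34 : ℕ) : ℕ :=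
  (Nat.add (Nat.add (Nat.add (Nat.add (o2 d01 d02) (Nat.add (o2 d01 d03) (o2 d01 d04))) (Nat.add
    (Nat.add (o2 d02 d03) (o2 d02 d04)) (Nat.add (o2 d03 d04) (o2 s01 d12)))) (Nat.add (Nat.add
    (Nat.add (o2 s01 d13) (o2 s01 d14)) (Nat.add (o2 d12 d13) (o2 d12 d14))) (Nat.add (Nat.add
    (o2 d13 d14) (o2 s02 s12)) (Nat.add (o2 s02 d23) (o2 s02 d24))))) (Nat.add (Nat.add (Nat.add
    (o2 s12 d23) (Nat.add (o2 s12 d24) (o2 d23 d24))) (Nat.add (Nat.add (o2 s03 s13) (o2 s03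
    s23)) (Nat.add (o2 s03 d34) (o2 s13 s23)))) (Nat.add (Nat.add (Nat.add (o2 s13 d34) (o2 s23
    d34)) (Nat.add (o2 s04 s14) (o2 s04 s24))) (Nat.add (Nat.add (o2 s04 s34) (o2 s14 s24))
    (Nat.add (o2 s14 s34) (o2 s24 s34))))))

/-- sum of the 60 defect terms -/
def s3 (dl U : ℕ)
    (d01 d02 d12 d03 d13 d23 d04 d14 d24 d34 s01 s02 s12 s03 s13 s23 s04 s14 s24 s34 : ℕ) : ℕ :=
  (Nat.add (Nat.add (Nat.add (Nat.add (Nat.add (df dl U d01 d02 d12 d03 d13 d23 d04 d14 d24 d34)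
    (Nat.add (df dl U d01 d03 d13 d02 d12 s23 d04 d14 d34 d24) (df dl U d01 d04 d14 d02 d12 s24
    d03 d13 s34 d23))) (Nat.add (Nat.add (df dl U d02 d01 s12 d03 d23 d13 d04 d24 d14 d34) (df
    dl U d02 d03 d23 d01 s12 s13 d04 d24 d34 d14)) (Nat.add (df dl U d02 d04 d24 d01 s12 s14 d03
    d23 s34 d13) (df dl U d03 d01 s13 d02 s23 d12 d04 d34 d14 d24)))) (Nat.add (Nat.add (Nat.add
    (df dl U d03 d02 s23 d01 s13 s12 d04 d34 d24 d14) (df dl U d03 d04 d34 d01 s13 s14 d02 s23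
    s24 d12)) (Nat.add (df dl U d04 d01 s14 d02 s24 d12 d03 s34 d13 d23) (df dl U d04 d02 s24
    d01 s14 s12 d03 s34 d23 d13))) (Nat.add (Nat.add (df dl U d04 d03 s34 d01 s14 s13 d02 s24
    s23 d12) (df dl U s01 d12 d02 d13 d03 d23 d14 d04 d24 d34)) (Nat.add (df dl U s01 d13 d03
    d12 d02 s23 d14 d04 d34 d24) (df dl U s01 d14 d04 d12 d02 s24 d13 d03 s34 d23))))) (Nat.add
    (Nat.add (Nat.add (df dl U d12 s01 s02 d13 d23 d03 d14 d24 d04 d34) (Nat.add (df dl U d12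
    d13 d23 s01 s02 s03 d14 d24 d34 d04) (df dl U d12 d14 d24 s01 s02 s04 d13 d23 s34 d03)))
    (Nat.add (Nat.add (df dl U d13 s01 s03 d12 s23 d02 d14 d34 d04 d24) (df dl U d13 d12 s23 s01
    s03 s02 d14 d34 d24 d04)) (Nat.add (df dl U d13 d14 d34 s01 s03 s04 d12 s23 s24 d02) (df dl
    U d14 s01 s04 d12 s24 d02 d13 s34 d03 d23)))) (Nat.add (Nat.add (Nat.add (df dl U d14 d12
    s24 s01 s04 s02 d13 s34 d23 d03) (df dl U d14 d13 s34 s01 s04 s03 d12 s24 s23 d02)) (Nat.add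
    (df dl U s02 s12 d01 d23 d03 d13 d24 d04 d14 d34) (df dl U s02 d23 d03 s12 d01 s13 d24 d04
    d34 d14))) (Nat.add (Nat.add (df dl U s02 d24 d04 s12 d01 s14 d23 d03 s34 d13) (df dl U s12
    s02 s01 d23 d13 d03 d24 d14 d04 d34)) (Nat.add (df dl U s12 d23 d13 s02 s01 s03 d24 d14 d34
    d04) (df dl U s12 d24 d14 s02 s01 s04 d23 d13 s34 d03)))))) (Nat.add (Nat.add (Nat.add
    (Nat.add (df dl U d23 s02 s03 s12 s13 d01 d24 d34 d04 d14) (Nat.add (df dl U d23 s12 s13 s02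
    s03 s01 d24 d34 d14 d04) (df dl U d23 d24 d34 s02 s03 s04 s12 s13 s14 d01))) (Nat.add
    (Nat.add (df dl U d24 s02 s04 s12 s14 d01 d23 s34 d03 d13) (df dl U d24 s12 s14 s02 s04 s01
    d23 s34 d13 d03)) (Nat.add (df dl U d24 d23 s34 s02 s04 s03 s12 s14 s13 d01) (df dl U s03
    s13 d01 s23 d02 d12 d34 d04 d14 d24)))) (Nat.add (Nat.add (Nat.add (df dl U s03 s23 d02 s13
    d01 s12 d34 d04 d24 d14) (df dl U s03 d34 d04 s13 d01 s14 s23 d02 s24 d12)) (Nat.add (df dl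
    U s13 s03 s01 s23 d12 d02 d34 d14 d04 d24) (df dl U s13 s23 d12 s03 s01 s02 d34 d14 d24
    d04))) (Nat.add (Nat.add (df dl U s13 d34 d14 s03 s01 s04 s23 d12 s24 d02) (df dl U s23 s03
    s02 s13 s12 d01 d34 d24 d04 d14)) (Nat.add (df dl U s23 s13 s12 s03 s02 s01 d34 d24 d14 d04)
    (df dl U s23 d34 d24 s03 s02 s04 s13 s12 s14 d01))))) (Nat.add (Nat.add (Nat.add (df dl U
    d34 s03 s04 s13 s14 d01 s23 s24 d02 d12) (Nat.add (df dl U d34 s13 s14 s03 s04 s01 s23 s24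
    d12 d02) (df dl U d34 s23 s24 s03 s04 s02 s13 s14 s12 d01))) (Nat.add (Nat.add (df dl U s04
    s14 d01 s24 d02 d12 s34 d03 d13 d23) (df dl U s04 s24 d02 s14 d01 s12 s34 d03 d23 d13))
    (Nat.add (df dl U s04 s34 d03 s14 d01 s13 s24 d02 s23 d12) (df dl U s14 s04 s01 s24 d12 d02
    s34 d13 d03 d23)))) (Nat.add (Nat.add (Nat.add (df dl U s14 s24 d12 s04 s01 s02 s34 d13 d23
    d03) (df dl U s14 s34 d13 s04 s01 s03 s24 d12 s23 d02)) (Nat.add (df dl U s24 s04 s02 s14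
    s12 d01 s34 d23 d03 d13) (df dl U s24 s14 s12 s04 s02 s01 s34 d23 d13 d03))) (Nat.add
    (Nat.add (df dl U s24 s34 d23 s04 s02 s03 s14 s12 s13 d01) (df dl U s34 s04 s03 s14 s13 d01
    s24 s23 d02 d12)) (Nat.add (df dl U s34 s14 s13 s04 s03 s01 s24 s23 d12 d02) (df dl U s34
    s24 s23 s04 s03 s02 s14 s13 s12 d01)))))))

/-- a function of the digits as a function of five vertices -/
noncomputable def onV {α V : Type} (F : F20 α) (G : OG V) (a b c d e : V) : α :=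
  F (ac G a b) (ac G a c) (ac G b c) (ac G a d) (ac G b d) (ac G c d) (ac G a e) (ac G b e) (ac
    G c e) (ac G d e) (ac G b a) (ac G c a) (ac G c b) (ac G d a) (ac G d b) (ac G d c) (ac G e
    a) (ac G e b) (ac G e c) (ac G e d)

/-- invariance under the four adjacent transpositions -/
def Inv {α V : Type} (f : V → V → V → V → V → α) : Prop :=
  (∀ a b c d e, f b a c d e = f a b c d e) ∧ (∀ a b c d e, f a c b d e = f a b c d e) ∧
  (∀ a b c d e, f a b d c e = f a b c d e) ∧ (∀ a b c d e, f a b c e d = f a b c d e)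

/-- weighted sum over five vertices -/
noncomputable def E5 {V : Type} [Fintype V] (w : V → ℝ) (f : V → V → V → V → V → ℝ) : ℝ :=
  ∑ a, ∑ b, ∑ c, ∑ d, ∑ e, w a * w b * w c * w d * w e * f a b c d e

/-- the local term with three labels -/
noncomputable def K3 {V : Type} (x : ℕ → ℕ → ℕ → ℕ) (G : OG V) (a b c d e : V) : ℕ :=
  x (c3 (ac G a b) (ac G a c) (ac G b c)) (c3 (ac G a d) (ac G b d) (ac G c d))
    (c3 (ac G a e) (ac G b e) (ac G c e))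

/-- the local term with one label -/
noncomputable def K1 {V : Type} (y : ℕ → ℕ → ℕ) (G : OG V) (a b c d e : V) : ℕ :=
  y (c3 (ac G a b) (ac G a c) (ac G b c)) (c3 (ac G a d) (ac G a e) (ac G d e))

/-- the bad triples in terms of the code -/
def badc (a b c : ℕ) : Bool :=
  or (and (Nat.beq a 0) (Nat.beq b 0)) (or (and (Nat.beq a 0) (Nat.beq c 0))
    (or (and (Nat.beq b 0) (Nat.beq c 0)) (or (and (Nat.beq a 1) (Nat.beq b 1))
      (or (and (Nat.beq a 2) (Nat.beq c 1)) (and (Nat.beq b 2) (Nat.beq c 2))))))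

/-- IND: local minimality induction. -/
def S_IND : Prop := ∀ F : F20 Bool, chk F = true → ∀ (V : Type) (G : OG V), NoC4 G →
  Inv (onV F G) → ∀ a b c d e : V, onV F G a b c d e = true

/-- INV: invariance of the sums. -/
def S_INV : Prop :=
  (∀ x : ℕ → ℕ → ℕ → ℕ, (∀ c p q, x c p q = x c q p) → ∀ (V : Type) (G : OG V),
    Inv (onV (t60 x) G)) ∧
  (∀ y : ℕ → ℕ → ℕ, (∀ p q, y p q = y q p) →
    (∀ q, ∀ a < 3, ∀ b < 3, y (c3 a b 0) q = y (c3 b a 0) q ∧ y (c3 a b 1) q = y (c3 b a 2) q) →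
    ∀ (V : Type) (G : OG V), Inv (onV (t15 y) G))

/-- INS: invariance of the three statistics. -/
def S_INS : Prop := ∀ (V : Type) (G : OG V),
  Inv (onV sz G) ∧ Inv (onV sc G) ∧ ∀ dl U : ℕ, Inv (onV (s3 dl U) G)

/-- PRM: permutation invariance of `E5`. -/
def S_PRM : Prop := ∀ (V : Type) [Fintype V] (w : V → ℝ) (f : V → V → V → V → V → ℝ)
  (l : Fin 5 → Fin 5), Function.Bijective l →
  E5 w (fun a b c d e => f (![a, b, c, d, e] (l 0)) (![a, b, c, d, e] (l 1))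
    (![a, b, c, d, e] (l 2)) (![a, b, c, d, e] (l 3)) (![a, b, c, d, e] (l 4))) = E5 w f

/-- SUM: the sums in terms of the local terms. -/
def S_SUM : Prop := ∀ (V : Type) [Fintype V] (G : OG V) (w : V → ℝ),
  (∀ x, E5 w (fun a b c d e => ((onV (t60 x) G a b c d e : ℕ) : ℝ)) =
    60 * E5 w (fun a b c d e => (K3 x G a b c d e : ℝ))) ∧
  (∀ y, E5 w (fun a b c d e => ((onV (t15 y) G a b c d e : ℕ) : ℝ)) =
    15 * E5 w (fun a b c d e => (K1 y G a b c d e : ℝ)))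

/-- PS3: positivity of the three-label terms. -/
def S_PS3 : Prop := ∀ (x : ℕ → ℕ → ℕ → ℕ) (off n : ℕ) (L : ℕ → ℕ → ℕ → ℤ),
  (∀ c < 27, ∀ p < 27, ∀ q < 27, (x c p q : ℤ) = off + ∑ j ∈ range n, L c p j * L c q j) →
  ∀ (V : Type) [Fintype V] (G : OG V) (w : V → ℝ), Wt w →
    (off : ℝ) ≤ E5 w (fun a b c d e => (K3 x G a b c d e : ℝ))

/-- PS1: positivity of the one-label terms. -/
def S_PS1 : Prop := ∀ (y : ℕ → ℕ → ℕ) (off n : ℕ) (L : ℕ → ℕ → ℤ) (g : ℕ → ℕ),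
  (∀ a < 3, ∀ b < 3, ∀ c < 3, ∀ a' < 3, ∀ b' < 3, ∀ c' < 3,
    (y (c3 a b c) (c3 a' b' c') : ℤ) = off + ∑ j ∈ range n, L (c3 a b c) j * L (c3 a' b' c') j +
      g (c3 a b c) * (4 - 9 * (if badc a' b' c' then 1 else 0)) +
      g (c3 a' b' c') * (4 - 9 * (if badc a b c then 1 else 0))) →
  ∀ (V : Type) [Fintype V] (G : OG V) (w : V → ℝ), Wt w → (∀ v, bv G w v ≤ 4 / 9) →
    (off : ℝ) ≤ E5 w (fun a b c d e => (K1 y G a b c d e : ℝ))

/-- the partition given by three vertices -/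
noncomputable def pu {V : Type} (G : OG V) (a b c : V) (v : V) : Fin 3 :=
  ⟨pt (ac G a v) (ac G b v) (ac G c v), by
    unfold pt; cases Nat.beq (ac G a v) 0 <;> cases Nat.beq (ac G b v) 0 <;>
      cases Nat.beq (ac G c v) 0 <;> simp⟩

/-- EST: the values of the statistics. -/
def S_EST : Prop := ∀ (V : Type) [Fintype V] (G : OG V) (w : V → ℝ), ∑ v, w v = 1 →
  E5 w (fun a b c d e => ((onV sz G a b c d e : ℕ) : ℝ)) = 10 * ∑ v, w v * Hh G w v ∧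
  E5 w (fun a b c d e => ((onV sc G a b c d e : ℕ) : ℝ)) = 30 * ∑ v, w v * X G w v ^ 2 ∧
  ∀ dl U : ℕ, E5 w (fun a b c d e => ((onV (s3 dl U) G a b c d e : ℕ) : ℝ)) =
    60 * (dl + ∑ a, ∑ b, ∑ c, w a * w b * w c *
      ((1 - nn G a b) * (1 - nn G a c) * (1 - nn G b c) * (U * Dl G w (pu G a b c) - dl)))

end Pool.Agent.W448.FF
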