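import Pool.Agent.W448.FF.Main
import Pool.Agent.W578.FF.Min
import Pool.Agent.W578.FF.Prm
import Pool.Agent.W683.FF.Ident
import Pool.Agent.W128.FF.Part
import Pool.Agent.W101.FF.Dec
import Pool.Agent.W591.FF.R1
import Pool.Agent.W540.FF.R2
import Pool.Agent.W327.FF.Th
import Pool.Agent.W352.FF.INT
import Pool.Agent.W308.FF.XX
import Pool.Agent.W692.FF.Pt
import Pool.Agent.W978.FF.Loc
import Pool.Agent.W249.FF.Trd
import Pool.Agent.W605.FF.Ptd
import Pool.Agent.W806.FF.Num
import Pool.Agent.W168.FF.GR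
import Pool.Agent.W216.FF.Ind
import Pool.Agent.W333.FF.Inv
import Pool.Agent.W108.FF.INS
import Pool.Agent.W335.FF.SUM
import Pool.Agent.W554.FF.Ps3
import Pool.Agent.W613.FF.PS1
import Pool.Agent.W32.FF.Est

/-!
Turan's (3,4)-problem (MP_466853_co): the optimal bound 4/9 for every 3-graph obtained by the
Fon-der-Flaass construction from an oriented graph without induced directed 4-cycles.

Proof: a kernel-checked flag certificate on 5 vertices (three inequalities) localises a weighted
counterexample near a complete tripartite orientation; a partition inequality and a robust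
version of the acyclicity of bipartite orientations without directed 4-cycle finish the proof.
-/

set_option autoImplicit false

namespace Pool.Agent.W448.FF.Final

open Pool.Agent.W448.FF Finset

theorem parts : Parts where
  min := Pool.Agent.W578.FF.min
  id' := Pool.Agent.W683.FF.id'
  part' := Pool.Agent.W128.FF.part' Pool.Agent.W683.FF.id' Pool.Agent.W101.FF.dec
  dec := Pool.Agent.W101.FF.dec
  xx := Pool.Agent.W308.FF.xx (Pool.Agent.W327.FF.th (Pool.Agent.W540.FF.r2
    Pool.Agent.W591.FF.r1)) Pool.Agent.W352.FF.int'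
  pt := Pool.Agent.W692.FF.pt
  loc := Pool.Agent.W978.FF.loc
  trd := Pool.Agent.W249.FF.trd
  ptd := Pool.Agent.W605.FF.ptd
  num := Pool.Agent.W806.FF.num
  ind := Pool.Agent.W216.FF.ind
  inv := Pool.Agent.W333.FF.inv
  ins := Pool.Agent.W108.FF.ins
  sum := Pool.Agent.W335.FF.sum Pool.Agent.W578.FF.prm
  ps3 := Pool.Agent.W554.FF.ps3
  ps1 := Pool.Agent.W613.FF.ps1
  est := Pool.Agent.W32.FF.est Pool.Agent.W578.FF.prm

open Classical in
/-- Every 3-graph `H` containing the Fon-der-Flaass graph of an oriented graph without induced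
directed 4-cycle has the Turan property and at least `(2/27) n^3 - n^2/2` edges, and the weighted
density of the Fon-der-Flaass graph is at least `4/9` for every weight vector. -/
theorem final (n : ℕ) (G : OG (Fin n)) (hG : NoC4 G) :
    (∀ S : Finset (Fin n), S.card = 4 → ∃ e ∈ FdF G, e ⊆ S) ∧
    (∀ w : Fin n → ℝ, (∀ v, 0 ≤ w v) → ∑ v, w v = 1 →
      4 / 9 ≤ ∑ x, ∑ y, ∑ z, if Bad G x y z then w x * w y * w z else 0) ∧
    (∀ H : Finset (Finset (Fin n)), (∀ e ∈ FdF G, e ∈ H) →
      4 * n ^ 3 ≤ 54 * H.card + 27 * n ^ 2) := by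
  have hw : ∀ w : Fin n → ℝ, Wt w → 4 / 9 ≤ b G w :=
    fun w hw => weighted parts (Fin n) G hG w hw
  obtain ⟨g1, g2⟩ := Pool.Agent.W168.FF.gr n G hG hw
  refine ⟨g1, ?_, g2⟩
  intro w h1 h2
  refine (hw w ⟨h1, h2⟩).trans (le_of_eq ?_)
  unfold b bv bd
  refine sum_congr rfl fun x _ => ?_
  rw [mul_sum]
  refine sum_congr rfl fun y _ => ?_
  rw [mul_sum]
  refine sum_congr rfl fun z _ => ?_
  split_ifs
  · ring
  · ring

end Pool.Agent.W448.FF.Final
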