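import Pool.Agent.W448.FF.Certs
import Pool.Agent.W448.FF.FinReal

/-! The 4/9 theorem for weighted Fon-der-Flaass graphs, from the parts. -/

set_option autoImplicit false
set_option linter.unusedSectionVars false

namespace Pool.Agent.W448.FF

open Finset

/-- all parts -/
structure Parts : Prop where
  min : S_MIN
  id' : S_ID
  part' : S_PART
  dec : S_DEC
  xx : S_XX
  pt : S_PT
  loc : S_LOC
  trd : S_TRD
  ptd : S_PTD
  num : S_NUM
  ind : S_IND
  inv : S_INV
  ins : S_INS
  sum : S_SUM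
  ps3 : S_PS3
  ps1 : S_PS1
  est : S_EST

variable {V : Type} [Fintype V] (G : OG V) (w : V → ℝ)

theorem c1 (H : Parts) (hG : NoC4 G) (hw : Wt w) (hb : ∀ v, bv G w v ≤ 4 / 9) :
    ∑ v, w v * Hh G w v ≤ 1 / 3 + 122 / 10000 := by
  have h := raw1 H.ind H.inv H.ins H.sum H.ps3 H.ps1 V G w hG hw hb
  have e : E5 w (fun a b c d e => ((onV C1.st G a b c d e : ℕ) : ℝ)) =
      120000000000 * E5 w (fun a b c d e => ((onV sz G a b c d e : ℕ) : ℝ)) := by
    rw [← E5_smul]
    congr 1
    funext a b c d e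
    have : onV C1.st G a b c d e = 120000000000 * onV sz G a b c d e := rfl
    rw [this]; push_cast; ring
  rw [e, (H.est V G w hw.2).1] at h
  have h0 : (C1.OFF : ℝ) = 0x400000000000 := by norm_num [C1.OFF]
  have h1 : (C1.C0 : ℝ) = 75 * 0x400000000000 + 414640000000 := by norm_num [C1.C0]
  rw [h0, h1] at h
  linarith

theorem c2 (H : Parts) (hG : NoC4 G) (hw : Wt w) (hb : ∀ v, bv G w v ≤ 4 / 9) :
    ∑ v, w v * X G w v ^ 2 + (1 / 3 + 141 / 10000) * ∑ v, w v * Hh G w v ≤
      2 / 9 + 47 / 10000 + 365 / 1000000 := by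
  have h := raw2 H.ind H.inv H.ins H.sum H.ps3 H.ps1 V G w hG hw hb
  have e : E5 w (fun a b c d e => ((onV C2.st G a b c d e : ℕ) : ℝ)) =
      40000000000 * E5 w (fun a b c d e => ((onV sc G a b c d e : ℕ) : ℝ)) +
      41692000000 * E5 w (fun a b c d e => ((onV sz G a b c d e : ℕ) : ℝ)) := by
    rw [← E5_smul, ← E5_smul, ← E5_add]
    congr 1
    funext a b c d e
    have : onV C2.st G a b c d e = 40000000000 * onV sc G a b c d e +
      41692000000 * onV sz G a b c d e := rfl
    rw [this]; push_cast; ring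
  rw [e, (H.est V G w hw.2).1, (H.est V G w hw.2).2.1] at h
  have h0 : (C2.OFF : ℝ) = 0x40000000000 := by norm_num [C2.OFF]
  have h1 : (C2.C0 : ℝ) ≤ 75 * 0x40000000000 + 1200000000000 * (2 / 9 + 47 / 10000 +
    365 / 1000000) := by norm_num [C2.C0]
  rw [h0] at h
  linarith

theorem c3' (H : Parts) (hG : NoC4 G) (hw : Wt w) (hb : ∀ v, bv G w v ≤ 4 / 9) :
    ∑ a, ∑ b, ∑ c, w a * w b * w c * ((1 - nn G a b) * (1 - nn G a c) * (1 - nn G b c) *
      (20000000000 * Dl G w (pu G a b c) - 50000000)) ≤ 0 := by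
  have h := raw3 H.ind H.inv H.ins H.sum H.ps3 H.ps1 V G w hG hw hb
  have e := (H.est V G w hw.2).2.2 50000000 20000000000
  have e' : E5 w (fun a b c d e => ((onV C3.st G a b c d e : ℕ) : ℝ)) =
    E5 w (fun a b c d e => ((onV (s3 50000000 20000000000) G a b c d e : ℕ) : ℝ)) := rfl
  rw [e', e] at h
  have h0 : (C3.OFF : ℝ) = 0x80000000000 := by norm_num [C3.OFF]
  have h1 : (C3.C0 : ℝ) = 75 * 0x80000000000 + 60 * 50000000 := by norm_num [C3.C0]
  rw [h0, h1] at h
  push_cast at h
  linarith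


theorem tri_nonneg (a b c : V) : 0 ≤ (1 - nn G a b) * (1 - nn G a c) * (1 - nn G b c) := by
  have h : ∀ u v, 0 ≤ 1 - nn G u v := by
    intro u v; unfold nn; split_ifs <;> norm_num
  exact mul_nonneg (mul_nonneg (h _ _) (h _ _)) (h _ _)

theorem dI_nonneg (hw : ∀ v, 0 ≤ w v) (A : Finset V) : 0 ≤ dI G w A := by
  unfold dI
  refine sum_nonneg fun u _ => sum_nonneg fun v _ => mul_nonneg (mul_nonneg (hw u) (hw v)) ?_
  unfold nn; split_ifs <;> norm_num

theorem dM_nonneg (hw : ∀ v, 0 ≤ w v) (A B : Finset V) : 0 ≤ dM G w A B := by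
  unfold dM
  refine sum_nonneg fun u _ => sum_nonneg fun v _ => mul_nonneg (mul_nonneg (hw u) (hw v)) ?_
  unfold nn; split_ifs <;> norm_num

/-- the best partition has few defects -/
theorem few_defects (H : Parts) (hG : NoC4 G) (hw : Wt w) (hb : ∀ v, bv G w v ≤ 4 / 9)
    (p : V → Fin 3) (hp : ∀ q : V → Fin 3, Dl G w p ≤ Dl G w q) : Dl G w p ≤ 25 / 10000 := by
  by_contra hcon
  push Not at hcon
  have h1 := c1 G w H hG hw hb
  have h3 := c3' G w H hG hw hb
  have ht := H.trd V G w hw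
  have e1 : ∑ v, w v * (Hh G w v - 1 / 3) = ∑ v, w v * Hh G w v - 1 / 3 := by
    simp only [mul_sub, sum_sub_distrib, ← sum_mul, hw.2, one_mul]
  rw [e1] at ht
  set T : ℝ := ∑ u, ∑ v, ∑ z, w u * w v * w z *
    ((1 - nn G u v) * (1 - nn G u z) * (1 - nn G v z)) with hT
  have hT0 : 0 < T := by linarith
  have h4 : (20000000000 * Dl G w p - 50000000) * T ≤
      ∑ a, ∑ b, ∑ c, w a * w b * w c * ((1 - nn G a b) * (1 - nn G a c) * (1 - nn G b c) *
      (20000000000 * Dl G w (pu G a b c) - 50000000)) := by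
    rw [hT]
    simp only [mul_sum]
    refine sum_le_sum fun a _ => sum_le_sum fun b _ => sum_le_sum fun c _ => ?_
    have h5 : 0 ≤ w a * w b * w c * ((1 - nn G a b) * (1 - nn G a c) * (1 - nn G b c)) :=
      mul_nonneg (mul_nonneg (mul_nonneg (hw.1 a) (hw.1 b)) (hw.1 c)) (tri_nonneg G a b c)
    have h6 := hp (pu G a b c)
    have h7 : 20000000000 * Dl G w p - 50000000 ≤
      20000000000 * Dl G w (pu G a b c) - 50000000 := by linarith
    have h8 := mul_le_mul_of_nonneg_right h7 h5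
    linarith
  have h9 : 0 < (20000000000 * Dl G w p - 50000000) * T := mul_pos (by linarith) hT0
  linarith

/-- main contradiction for a positive weight with constant `bv` -/
theorem no_counter (H : Parts) (hG : NoC4 G) (hw : Wp w) (hb : b G w < 4 / 9)
    (hbv : ∀ v, bv G w v = b G w) : False := by
  have hwt : Wt w := ⟨fun v => (hw.1 v).le, hw.2⟩
  have hb' : ∀ v, bv G w v ≤ 4 / 9 := fun v => by rw [hbv v]; exact hb.le
  obtain ⟨p, hp, hloc⟩ := H.loc V G w hw
  have hDl := few_defects G w H hG hwt hb' p hp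
  have h1 := c1 G w H hG hwt hb'
  have h2 := c2 G w H hG hwt hb'
  obtain ⟨idv, idb, idx⟩ := H.id' V G w hw.2
  obtain ⟨d1, d2, d3, d4, d5, d6, d7, d8, d9, d10⟩ := H.dec V G w p hwt
  have hpt := H.pt V G w p hwt
  have hpart := H.part' V G w p hwt
  -- abbreviations
  set e0 := ep w p 0 with he0
  set e1 := ep w p 1 with he1
  set e2 := ep w p 2 with he2
  set I0 := dI G w (part p 0) with hI0
  set I1 := dI G w (part p 1) with hI1
  set I2 := dI G w (part p 2) with hI2
  set M01 := dM G w (part p 0) (part p 1) with hM01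
  set M02 := dM G w (part p 0) (part p 2) with hM02
  set M12 := dM G w (part p 1) (part p 2) with hM12
  have nI0 : 0 ≤ I0 := dI_nonneg G w hwt.1 _
  have nI1 : 0 ≤ I1 := dI_nonneg G w hwt.1 _
  have nI2 : 0 ≤ I2 := dI_nonneg G w hwt.1 _
  have nM01 : 0 ≤ M01 := dM_nonneg G w hwt.1 _ _
  have nM02 : 0 ≤ M02 := dM_nonneg G w hwt.1 _ _
  have nM12 : 0 ≤ M12 := dM_nonneg G w hwt.1 _ _
  -- mean values
  have eh : ∑ v, w v * (Hh G w v - 1 / 3) = ∑ v, w v * Hh G w v - 1 / 3 := by
    simp only [mul_sub, sum_sub_distrib, ← sum_mul, hw.2, one_mul]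
  have ex : ∑ v, w v * (X G w v - 1 / 3) = ∑ v, w v * X G w v - 1 / 3 := by
    simp only [mul_sub, sum_sub_distrib, ← sum_mul, hw.2, one_mul]
  have ex2 : ∑ v, w v * (X G w v - 1 / 3) ^ 2 =
      ∑ v, w v * X G w v ^ 2 - 2 / 3 * ∑ v, w v * X G w v + 1 / 9 := by
    have : ∀ v, w v * (X G w v - 1 / 3) ^ 2 =
      w v * X G w v ^ 2 - 2 / 3 * (w v * X G w v) + w v * (1 / 9) := fun v => by ring
    simp only [this, sum_add_distrib, sum_sub_distrib, ← mul_sum, ← sum_mul, hw.2]
    ring
  set hh := ∑ v, w v * (Hh G w v - 1 / 3) with hhh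
  set x2 := ∑ v, w v * (X G w v - 1 / 3) ^ 2 with hx2
  have hx2nn : 0 ≤ x2 := sum_nonneg fun v _ => mul_nonneg (hwt.1 v) (sq_nonneg _)
  have a1 : hh ≤ 122 / 10000 := by linarith
  have a2 : x2 + 141 / 10000 * hh ≤ 365 / 1000000 := by linarith
  -- defects
  have hDsum : Dl G w p = (I0 + I1 + I2) + 2 * (M01 + M02 + M12) := by
    unfold Dl D
    simp only [mul_add, sum_add_distrib]
    rw [d8, d9]; ring
  have hsq : e0 ^ 2 + e1 ^ 2 + e2 ^ 2 ≤ 147 / 10000 := by
    rw [d8, d9] at d7
    linarith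
  have be : ∀ x y z : ℝ, x + y + z = 0 → x ^ 2 + y ^ 2 + z ^ 2 ≤ 147 / 10000 →
      |x| ≤ 99 / 1000 := by
    intro x y z h h'
    refine abs_le_of_sq_le_sq ?_ (by norm_num)
    have hz : x = -(y + z) := by linarith
    have hz2 : x ^ 2 = y ^ 2 + 2 * (y * z) + z ^ 2 := by rw [hz]; ring
    have hz3 : 0 ≤ y ^ 2 - 2 * (y * z) + z ^ 2 := by
      have := sq_nonneg (y - z)
      linarith [this, show (y - z) ^ 2 = y ^ 2 - 2 * (y * z) + z ^ 2 by ring]
    have hz4 : ((99 : ℝ) / 1000) ^ 2 = 9801 / 1000000 := by norm_num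
    rw [hz4]
    linarith
  have b0 : |e0| ≤ 99 / 1000 := be e0 e1 e2 d1 hsq
  have b1 : |e1| ≤ 99 / 1000 := be e1 e0 e2 (by linarith) (by linarith)
  have b2 : |e2| ≤ 99 / 1000 := be e2 e0 e1 (by linarith) (by linarith)
  -- pointwise
  have hR : ∀ v, (Hh G w v - 1 / 3) ^ 2 + Rr G w v ≤ 1999333 / 100000000 := by
    intro v
    have h3 := idv v
    rw [hbv v] at h3
    have h4 : -(2 * ∑ u, w u * (o G u v * (X G w u - 1 / 3))) ≤
        ∑ u, w u * (141 / 20000 + (X G w u - 1 / 3) ^ 2 / (282 / 10000) - (X G w u - 1 / 3)) := by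
      rw [mul_sum, ← sum_neg_distrib]
      refine sum_le_sum fun u _ => ?_
      have h5 : -(2 * (o G u v * (X G w u - 1 / 3))) ≤
          141 / 20000 + (X G w u - 1 / 3) ^ 2 / (282 / 10000) - (X G w u - 1 / 3) := by
        have h6 : 0 ≤ 141 / 20000 + (X G w u - 1 / 3) ^ 2 / (282 / 10000) - (X G w u - 1 / 3) := by
          have : 141 / 20000 + (X G w u - 1 / 3) ^ 2 / (282 / 10000) - (X G w u - 1 / 3) =
            ((X G w u - 1 / 3) - 141 / 10000) ^ 2 / (282 / 10000) := by ring
          rw [this]; positivity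
        have h7 : 0 ≤ 141 / 20000 + (X G w u - 1 / 3) ^ 2 / (282 / 10000) + (X G w u - 1 / 3) := by
          have : 141 / 20000 + (X G w u - 1 / 3) ^ 2 / (282 / 10000) + (X G w u - 1 / 3) =
            ((X G w u - 1 / 3) + 141 / 10000) ^ 2 / (282 / 10000) := by ring
          rw [this]; positivity
        unfold o; split_ifs
        · linarith
        · linarith
      have := mul_le_mul_of_nonneg_left h5 (hwt.1 u)
      linarith
    have h8 : ∑ u, w u * (141 / 20000 + (X G w u - 1 / 3) ^ 2 / (282 / 10000) -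
        (X G w u - 1 / 3)) = 141 / 20000 + x2 / (282 / 10000) + hh / 2 := by
      have : ∀ u, w u * (141 / 20000 + (X G w u - 1 / 3) ^ 2 / (282 / 10000) -
        (X G w u - 1 / 3)) = w u * (141 / 20000) + (w u * (X G w u - 1 / 3) ^ 2) / (282 / 10000) -
        w u * (X G w u - 1 / 3) := fun u => by ring
      simp only [this, sum_add_distrib, sum_sub_distrib, ← sum_div, ← sum_mul, hw.2]
      rw [idx]; ring
    have h9 : 0 ≤ (X G w v - 1 / 3) ^ 2 := sq_nonneg _
    linarith
  have hD : ∀ v, D G w p v ≤ 55 / 1000 := by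
    intro v
    have h3 := hR v
    have h4 := hpt v
    have q0 := d5 v 0
    have q1 := d5 v 1
    have q2 := d5 v 2
    have l0 := hloc v 0
    have l1 := hloc v 1
    have l2 := hloc v 2
    have dv := d4 v
    have hv := d3 v
    have P0 : P w p 0 = 1 / 3 + e0 := by rw [he0]; unfold ep; ring
    have P1 : P w p 1 = 1 / 3 + e1 := by rw [he1]; unfold ep; ring
    have P2 : P w p 2 = 1 / 3 + e2 := by rw [he2]; unfold ep; ring
    rw [P0] at q0 h4 l0
    rw [P1] at q1 h4 l1
    rw [P2] at q2 h4 l2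
    set n0 := nj G w p v 0
    set n1 := nj G w p v 1
    set n2 := nj G w p v 2
    rw [hv] at h3 l0 l1 l2 dv
    have key := H.ptd
    have hpv : p v = 0 ∨ p v = 1 ∨ p v = 2 := by
      have : ∀ x : Fin 3, x = 0 ∨ x = 1 ∨ x = 2 := by decide
      exact this (p v)
    rcases hpv with h | h | h
    · rw [h, P0] at dv
      have := key e0 e1 e2 n0 n1 n2 d1 b0 b1 b2 q0.1 q1.1 q2.1 q0.2 q1.2 q2.2
        (by linarith) (by linarith) (by linarith)
      linarith
    · rw [h, P1] at dv
      have := key e1 e0 e2 n1 n0 n2 (by linarith) b1 b0 b2 q1.1 q0.1 q2.1 q1.2 q0.2 q2.2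
        (by
          have e : n1 + n0 + n2 - 1 / 3 = n0 + n1 + n2 - 1 / 3 := by ring
          rw [e]; linarith) (by linarith) (by linarith)
      linarith
    · rw [h, P2] at dv
      have := key e2 e0 e1 n2 n0 n1 (by linarith) b2 b0 b1 q2.1 q0.1 q1.1 q2.2 q0.2 q1.2
        (by
          have e : n2 + n0 + n1 - 1 / 3 = n0 + n1 + n2 - 1 / 3 := by ring
          rw [e]; linarith) (by linarith) (by linarith)
      linarith
  -- the partition inequality with the pointwise bound
  have hDD : 835 / 1000 * ((I0 + I1 + I2) + 2 * (M01 + M02 + M12)) ≤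
      ∑ v, w v * (D G w p v * (1 - 3 * D G w p v)) := by
    have h3 : 835 / 1000 * Dl G w p ≤ ∑ v, w v * (D G w p v * (1 - 3 * D G w p v)) := by
      unfold Dl
      rw [mul_sum]
      refine sum_le_sum fun v _ => ?_
      have h4 := hD v
      have h5 : 0 ≤ D G w p v := by unfold D; linarith [(d6 v).1, (d6 v).2]
      have h6 : D G w p v * (835 / 1000) ≤ D G w p v * (1 - 3 * D G w p v) :=
        mul_le_mul_of_nonneg_left (by linarith) h5
      have := mul_le_mul_of_nonneg_left h6 (hwt.1 v)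
      linarith
    rw [hDsum] at h3
    exact h3
  rw [d10] at hpart
  have hfin : 3 * x2 + 3 * (e0 * e1 * e2) + 835 / 1000 * (I0 + I1 + I2) +
      (1670 / 1000 - 6 * e2) * M01 + (1670 / 1000 - 6 * e1) * M02 +
      (1670 / 1000 - 6 * e0) * M12 < 0 := by
    linarith
  -- the product of the excesses is negative
  have c01 : 0 ≤ (1670 / 1000 - 6 * e2) * M01 := by
    rw [abs_le] at b2; exact mul_nonneg (by linarith [b2.2]) nM01
  have c02 : 0 ≤ (1670 / 1000 - 6 * e1) * M02 := by
    rw [abs_le] at b1; exact mul_nonneg (by linarith [b1.2]) nM02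
  have c12 : 0 ≤ (1670 / 1000 - 6 * e0) * M12 := by
    rw [abs_le] at b0; exact mul_nonneg (by linarith [b0.2]) nM12
  have hneg : e0 * e1 * e2 < 0 := by nlinarith
  have hP : ∀ j, P w p j = 1 / 3 + ep w p j := fun j => by unfold ep; ring
  have hXX := H.xx V G w hG hwt p
  rcases lt_trichotomy e0 0 with s0 | s0 | s0
  · rcases lt_trichotomy e1 0 with s1 | s1 | s1
    · -- both negative: e2 > 0, product positive
      have : 0 < e2 := by linarith
      have := mul_pos (mul_pos_of_neg_of_neg s0 s1) this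
      linarith
    · rw [s1] at hneg; simp at hneg
    · -- e0 < 0 < e1, so e2 > 0
      have s2 : 0 < e2 := by
        by_contra h; push Not at h
        have := mul_nonneg_of_nonpos_of_nonpos (mul_nonpos_of_nonpos_of_nonneg s0.le s1.le) h
        linarith
      refine fin_real H.num x2 e1 e2 e0 I1 I2 I0 M12 M01 M02 hx2nn (by linarith) b1 b2 b0 nI1 nI2
        nI0 nM12 nM01 nM02 s0 s1 s2 ?_ (by linarith)
      intro τ t0 t1 t2
      have := hXX 1 2 0 (by decide) (by decide) (by decide) (-e0) τ t0 t1 (by ring)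
        (by rw [hP]; rw [abs_le] at b0; linarith [b0.1]) (by rw [hP]; rw [abs_le] at b0; linarith [b0.1])
        t2
      linarith
  · rw [s0] at hneg; simp at hneg
  · rcases lt_trichotomy e1 0 with s1 | s1 | s1
    · have s2 : 0 < e2 := by
        by_contra h; push Not at h
        have := mul_nonneg_of_nonpos_of_nonpos (mul_nonpos_of_nonneg_of_nonpos s0.le s1.le) h
        linarith
      refine fin_real H.num x2 e0 e2 e1 I0 I2 I1 M02 M01 M12 hx2nn (by linarith) b0 b2 b1 nI0 nI2
        nI1 nM02 nM01 nM12 s1 s0 s2 ?_ (by linarith)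
      intro τ t0 t1 t2
      have := hXX 0 2 1 (by decide) (by decide) (by decide) (-e1) τ t0 t1 (by ring)
        (by rw [hP]; rw [abs_le] at b1; linarith [b1.1]) (by rw [hP]; rw [abs_le] at b1; linarith [b1.1])
        t2
      linarith
    · rw [s1] at hneg; simp at hneg
    · have s2 : e2 < 0 := by
        by_contra h; push Not at h
        have := mul_nonneg (mul_pos s0 s1).le h
        linarith
      refine fin_real H.num x2 e0 e1 e2 I0 I1 I2 M01 M02 M12 hx2nn (by linarith) b0 b1 b2 nI0 nI1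
        nI2 nM01 nM02 nM12 s2 s0 s1 ?_ (by linarith)
      intro τ t0 t1 t2
      have := hXX 0 1 2 (by decide) (by decide) (by decide) (-e2) τ t0 t1 (by ring)
        (by rw [hP]; rw [abs_le] at b2; linarith [b2.1]) (by rw [hP]; rw [abs_le] at b2; linarith [b2.1])
        t2
      linarith

/-- the theorem for weights -/
theorem weighted (H : Parts) (V : Type) [Fintype V] (G : OG V) (hG : NoC4 G) (w : V → ℝ)
    (hw : Wt w) : 4 / 9 ≤ b G w := by
  by_contra h
  push Not at h
  obtain ⟨V', hV', G', w', hG', hw', hb', hbv'⟩ := H.min V G w hG hw h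
  exact no_counter G' w' H hG' hw' hb' hbv'

end Pool.Agent.W448.FF
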