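import Pool.Agent.W448.FF.CertGen

/-! Table functions for the certificates, and their soundness. -/

set_option autoImplicit false

namespace Pool.Agent.W448.FF

open Finset

/-- `f` holds below `n` -/
def allN : ℕ → (ℕ → Bool) → Bool
  | 0, _ => true
  | n + 1, f => and (f n) (allN n f)

/-- sum below `n` -/
def sumN : ℕ → (ℕ → ℕ) → ℕ
  | 0, _ => 0
  | n + 1, f => Nat.add (sumN n f) (f n)

theorem allN_iff (n : ℕ) (f : ℕ → Bool) : allN n f = true ↔ ∀ i < n, f i = true := by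
  induction n with
  | zero => simp [allN]
  | succ n ih =>
    have e : allN (n + 1) f = (f n && allN n f) := rfl
    rw [e, Bool.and_eq_true, ih]
    constructor
    · rintro ⟨h1, h2⟩ i hi
      rcases Nat.lt_succ_iff_lt_or_eq.1 hi with h | rfl
      · exact h2 i h
      · exact h1
    · intro h
      exact ⟨h n (Nat.lt_succ_self n), fun i hi => h i (Nat.lt_succ_of_lt hi)⟩

theorem sumN_eq (n : ℕ) (f : ℕ → ℕ) : sumN n f = ∑ j ∈ range n, f j := by
  induction n with
  | zero => simp [sumN]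
  | succ n ih =>
    have e : sumN (n + 1) f = sumN n f + f n := rfl
    rw [e, sum_range_succ, ih]

/-- entry `(p, q)` of a packed table of 56-bit numbers with rows of length 27 -/
def lk (T p q : ℕ) : ℕ :=
  Nat.land (Nat.shiftRight T (Nat.mul 56 (Nat.add (Nat.mul 27 p) q))) 0xffffffffffffff

/-- symmetric lookup -/
def lks (T p q : ℕ) : ℕ := cond (Nat.ble p q) (lk T p q) (lk T q p)

/-- entry `(p, j)` of a packed table of 32-bit numbers with rows of length 27 -/
def lkl (T p q : ℕ) : ℕ :=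
  Nat.land (Nat.shiftRight T (Nat.mul 32 (Nat.add (Nat.mul 27 p) q))) 0xffffffff

/-- index of a one-label flag code among the 15 flags -/
def cn (n : ℕ) : ℕ := Nat.land (Nat.shiftRight 0xdd5ec8793ce8bba462973642110 (Nat.mul 4 n)) 15

theorem lks_symm (T p q : ℕ) : lks T p q = lks T q p := by
  unfold lks
  rcases Nat.lt_trichotomy p q with h | rfl | h
  · have h1 : Nat.ble p q = true := Nat.ble_eq_true_of_le h.le
    have h2 : Nat.ble q p = false := by
      rw [Bool.eq_false_iff]; intro h3; exact absurd (Nat.le_of_ble_eq_true h3) (by omega)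
    rw [h1, h2]; rfl
  · rfl
  · have h1 : Nat.ble q p = true := Nat.ble_eq_true_of_le h.le
    have h2 : Nat.ble p q = false := by
      rw [Bool.eq_false_iff]; intro h3; exact absurd (Nat.le_of_ble_eq_true h3) (by omega)
    rw [h1, h2]; rfl

/-- sum of row `p` of the table `L` -/
def rs (L p : ℕ) : ℕ := sumN 27 fun j => lkl L p j

/-- scalar product of two rows -/
def dt (L p q : ℕ) : ℕ := sumN 27 fun j => Nat.mul (lkl L p j) (lkl L q j)

/-- Gram check of a three-label table: `R` holds the row sums -/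
def gramOK (T L R OFF LB : ℕ) : Bool :=
  and (allN 27 fun p => Nat.beq (rs L p) (lk R 0 p))
    (allN 27 fun p => allN (Nat.succ p) fun q =>
      Nat.beq (Nat.add (lk T q p) (Nat.mul LB (Nat.add (lk R 0 p) (lk R 0 q))))
        (Nat.add OFF (Nat.add (dt L p q) (Nat.mul 27 (Nat.mul LB LB)))))

theorem gram_sum (L LB p q : ℕ) :
    ∑ j ∈ range 27, ((lkl L p j : ℤ) - LB) * ((lkl L q j : ℤ) - LB) =
      (dt L p q : ℤ) - LB * rs L p - LB * rs L q + 27 * (LB * LB) := by
  have e1 : ∑ j ∈ range 27, ((lkl L p j : ℤ) - LB) * ((lkl L q j : ℤ) - LB) =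
      ∑ j ∈ range 27, (lkl L p j : ℤ) * (lkl L q j) - LB * ∑ j ∈ range 27, (lkl L p j : ℤ) -
        LB * ∑ j ∈ range 27, (lkl L q j : ℤ) + 27 * (LB * LB) := by
    rw [mul_sum, mul_sum, ← sum_sub_distrib, ← sum_sub_distrib]
    have : (27 : ℤ) * (LB * LB) = ∑ j ∈ range 27, (LB : ℤ) * LB := by
      rw [sum_const, card_range]; simp
    rw [this, ← sum_add_distrib]
    refine sum_congr rfl fun j _ => ?_
    ring
  have e2 : ∀ r, (rs L r : ℤ) = ∑ j ∈ range 27, (lkl L r j : ℤ) := by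
    intro r; unfold rs; rw [sumN_eq]; push_cast; rfl
  have e4 : (dt L p q : ℤ) = ∑ j ∈ range 27, (lkl L p j : ℤ) * (lkl L q j) := by
    unfold dt; rw [sumN_eq]; push_cast; rfl
  rw [e1, e2, e2, e4]

theorem gram_int (L LB p q T OFF : ℕ) (h : T + LB * (rs L p + rs L q) =
    OFF + (dt L p q + 27 * (LB * LB))) :
    (T : ℤ) = OFF + ∑ j ∈ range 27, ((lkl L p j : ℤ) - LB) * ((lkl L q j : ℤ) - LB) := by
  have h2 : (T : ℤ) + LB * ((rs L p : ℤ) + rs L q) = OFF + ((dt L p q : ℤ) + 27 * (LB * LB)) := by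
    exact_mod_cast h
  rw [gram_sum]
  linarith

theorem gram_sound (T L R OFF LB : ℕ) (h : gramOK T L R OFF LB = true) :
    ∀ p < 27, ∀ q < 27, (lks T p q : ℤ) =
      OFF + ∑ j ∈ range 27, ((lkl L p j : ℤ) - LB) * ((lkl L q j : ℤ) - LB) := by
  unfold gramOK at h
  rw [Bool.and_eq_true, allN_iff, allN_iff] at h
  obtain ⟨h1, h2⟩ := h
  have key : ∀ p < 27, ∀ q ≤ p, (lks T p q : ℤ) =
      OFF + ∑ j ∈ range 27, ((lkl L p j : ℤ) - LB) * ((lkl L q j : ℤ) - LB) := by
    intro p hp q hq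
    have h3 := h2 p hp
    rw [allN_iff] at h3
    have h4 := Nat.eq_of_beq_eq_true (h3 q (Nat.lt_succ_of_le hq))
    have h5 := Nat.eq_of_beq_eq_true (h1 p hp)
    have h6 := Nat.eq_of_beq_eq_true (h1 q (by omega))
    rw [← h5, ← h6] at h4
    have h7 : lks T p q = lk T q p := by
      rw [lks_symm]; unfold lks; rw [Nat.ble_eq_true_of_le hq]; rfl
    rw [h7]
    exact gram_int L LB p q (lk T q p) OFF h4
  intro p hp q hq
  rcases le_total q p with hqp | hqp
  · exact key p hp q hqp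
  · rw [lks_symm, key q hq p hqp]
    congr 1
    exact sum_congr rfl fun j _ => mul_comm _ _

/-- bad codes as a number -/
def bdn (a b c : ℕ) : ℕ := cond (badc a b c) 1 0

/-- check of the one-label table -/
def oneOK (T L R G OFF LB : ℕ) : Bool :=
  and (allN 15 fun p => Nat.beq (rs L p) (lk R 0 p))
    (allN 3 fun a => allN 3 fun b => allN 3 fun c => allN 3 fun a' => allN 3 fun b' =>
      allN 3 fun c' =>
      Nat.beq (Nat.add (lks T (cn (c3 a b c)) (cn (c3 a' b' c')))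
        (Nat.add (Nat.mul LB (Nat.add (lk R 0 (cn (c3 a b c))) (lk R 0 (cn (c3 a' b' c')))))
          (Nat.add (Nat.mul 9 (Nat.mul (lk G 0 (cn (c3 a b c))) (bdn a' b' c')))
            (Nat.mul 9 (Nat.mul (lk G 0 (cn (c3 a' b' c'))) (bdn a b c))))))
        (Nat.add OFF (Nat.add (Nat.add (dt L (cn (c3 a b c)) (cn (c3 a' b' c')))
            (Nat.mul 27 (Nat.mul LB LB)))
          (Nat.add (Nat.mul 4 (lk G 0 (cn (c3 a b c))))
            (Nat.mul 4 (lk G 0 (cn (c3 a' b' c'))))))))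

theorem cn_lt : ∀ a < 3, ∀ b < 3, ∀ c < 3, cn (c3 a b c) < 15 := by decide +kernel

theorem cn_sw : ∀ a < 3, ∀ b < 3, cn (c3 a b 0) = cn (c3 b a 0) ∧
    cn (c3 a b 1) = cn (c3 b a 2) := by decide +kernel

theorem one_sound (T L R G OFF LB : ℕ) (h : oneOK T L R G OFF LB = true) :
    ∀ a < 3, ∀ b < 3, ∀ c < 3, ∀ a' < 3, ∀ b' < 3, ∀ c' < 3,
    (lks T (cn (c3 a b c)) (cn (c3 a' b' c')) : ℤ) = OFF + ∑ j ∈ range 27,
        ((lkl L (cn (c3 a b c)) j : ℤ) - LB) * ((lkl L (cn (c3 a' b' c')) j : ℤ) - LB) +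
      (lk G 0 (cn (c3 a b c)) : ℕ) * (4 - 9 * (if badc a' b' c' then 1 else 0)) +
      (lk G 0 (cn (c3 a' b' c')) : ℕ) * (4 - 9 * (if badc a b c then 1 else 0)) := by
  intro a ha b hb c hc a' ha' b' hb' c' hc'
  unfold oneOK at h
  rw [Bool.and_eq_true, allN_iff, allN_iff] at h
  obtain ⟨h1, h2⟩ := h
  have h3 := h2 a ha; rw [allN_iff] at h3
  have h4 := h3 b hb; rw [allN_iff] at h4
  have h5 := h4 c hc; rw [allN_iff] at h5
  have h6 := h5 a' ha'; rw [allN_iff] at h6
  have h7 := h6 b' hb'; rw [allN_iff] at h7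
  have h8 := Nat.eq_of_beq_eq_true (h7 c' hc')
  have r1 := Nat.eq_of_beq_eq_true (h1 _ (cn_lt a ha b hb c hc))
  have r2 := Nat.eq_of_beq_eq_true (h1 _ (cn_lt a' ha' b' hb' c' hc'))
  rw [← r1, ← r2] at h8
  simp only [Nat.add_eq, Nat.mul_eq] at h8
  have b1 : ((bdn a b c : ℕ) : ℤ) = (if badc a b c then 1 else 0) := by
    unfold bdn; cases badc a b c <;> rfl
  have b2 : ((bdn a' b' c' : ℕ) : ℤ) = (if badc a' b' c' then 1 else 0) := by
    unfold bdn; cases badc a' b' c' <;> rfl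
  rw [← b1, ← b2]
  rw [gram_sum]
  zify at h8
  linarith

end Pool.Agent.W448.FF
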